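import Mathlib

set_option autoImplicit false

/-!
# Noncompact restriction between Bergman spaces and D'Angelo type

We construct smooth bounded pseudoconvex domains `Ω₂ ⊆ Ω₁` in `ℂ³` with
`bΩ₁ ∩ bΩ₂ = {0}`, such that the restriction `A²(Ω₁) → A²(Ω₂)` is not compact while the D'Angelo
type of `0` is at least `14` for `Ω₁` and at most `12` for `Ω₂`:

* `Ω₁ : Re w + |w|² + |z₁|⁴ + |z₁|² |z₂|⁶ + |z₂|¹⁴ < 0`,
* `Ω₂ : Re w + 2|w|² + 2|z₁|⁴ + 2|z₂|¹² < 0`.

The functions `s²⁰ (w - s¹²)⁻³`, `s → 0`, are bounded in `A²(Ω₁)`, tend to `0` pointwise, and have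
norm bounded below on `Ω₂`.
-/

open MeasureTheory Topology Filter Asymptotics Set
open scoped ENNReal NNReal ContDiff

namespace Pool.Agent.Results.MP_46c13c_an.UnequalTypes

/-- `φ` is a continuous plurisubharmonic function on `Ω ⊆ ℂⁿ`: it is continuous on `Ω` and
satisfies the sub-mean value inequality on every closed complex disc
`{a + ζ b : |ζ| ≤ 1}` contained in `Ω`. -/
def IsContPSHOn {n : ℕ} (Ω : Set (Fin n → ℂ)) (φ : (Fin n → ℂ) → ℝ) : Prop :=
  ContinuousOn φ Ω ∧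
    ∀ a b : Fin n → ℂ, (∀ ζ : ℂ, ‖ζ‖ ≤ 1 → a + ζ • b ∈ Ω) →
      φ a ≤ Real.circleAverage (fun ζ : ℂ => φ (a + ζ • b)) 0 1

/-- `Ω ⊆ ℂⁿ` is pseudoconvex: it has a continuous plurisubharmonic exhaustion function. -/
def IsPseudoconvex {n : ℕ} (Ω : Set (Fin n → ℂ)) : Prop :=
  ∃ φ : (Fin n → ℂ) → ℝ, IsContPSHOn Ω φ ∧
    ∀ c : ℝ, IsCompact (closure {z | z ∈ Ω ∧ φ z < c}) ∧ closure {z | z ∈ Ω ∧ φ z < c} ⊆ Ω

/-- `r` is a `C^∞` local defining function for `Ω` near `p`: on some open neighbourhood `U` of `p`,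
`r` is `C^∞` with `dr ≠ 0`, and `Ω ∩ U = {z ∈ U : r z < 0}`. -/
def IsLocalDefiningFunction {n : ℕ} (Ω : Set (Fin n → ℂ)) (p : Fin n → ℂ)
    (r : (Fin n → ℂ) → ℝ) : Prop :=
  ∃ U : Set (Fin n → ℂ), IsOpen U ∧ p ∈ U ∧ ContDiffOn ℝ ∞ r U ∧
    (∀ z ∈ U, fderiv ℝ r z ≠ 0) ∧ Ω ∩ U = {z | z ∈ U ∧ r z < 0}

/-- Smooth bounded pseudoconvex domains in `ℂⁿ`: bounded, connected, open, with `C^∞` boundary
(every boundary point has a `C^∞` local defining function), and pseudoconvex. -/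
structure IsSmoothBoundedPseudoconvexDomain {n : ℕ} (Ω : Set (Fin n → ℂ)) : Prop where
  isOpen : IsOpen Ω
  isConnected : IsConnected Ω
  isBounded : Bornology.IsBounded Ω
  smoothBoundary : ∀ p ∈ frontier Ω, ∃ r, IsLocalDefiningFunction Ω p r
  pseudoconvex : IsPseudoconvex Ω

/-- `f` belongs to the Bergman space `A²(Ω)`: it is holomorphic on `Ω` and square integrable on `Ω`
with respect to Lebesgue measure on `ℂⁿ`. -/
def MemBergman {n : ℕ} (Ω : Set (Fin n → ℂ)) (f : (Fin n → ℂ) → ℂ) : Prop :=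
  DifferentiableOn ℂ f Ω ∧ MemLp f 2 ((volume : Measure (Fin n → ℂ)).restrict Ω)

/-- The restriction operator `R : A²(Ω₁) → A²(Ω₂)`, `R f = f|_{Ω₂}` (for `Ω₂ ⊆ Ω₁`), is compact:
every sequence which is bounded in the norm of `A²(Ω₁)` has a subsequence whose restrictions to
`Ω₂` converge in the norm of `A²(Ω₂)` to an element of `A²(Ω₂)`. -/
def RestrictionIsCompact {n : ℕ} (Ω₁ Ω₂ : Set (Fin n → ℂ)) : Prop :=
  ∀ (f : ℕ → (Fin n → ℂ) → ℂ) (C : ℝ≥0),
    (∀ j, MemBergman Ω₁ (f j)) →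
    (∀ j, eLpNorm (f j) 2 ((volume : Measure (Fin n → ℂ)).restrict Ω₁) ≤ C) →
    ∃ (g : (Fin n → ℂ) → ℂ) (φ : ℕ → ℕ), MemBergman Ω₂ g ∧ StrictMono φ ∧
      Tendsto (fun j => eLpNorm (f (φ j) - g) 2 ((volume : Measure (Fin n → ℂ)).restrict Ω₂))
        atTop (𝓝 0)

/-- The order of vanishing at `0` of a function `g` of one complex variable: the supremum of the
`m` with `g(t) = O(|t|^m)` as `t → 0`. -/
noncomputable def vanishingOrder {E : Type*} [NormedAddCommGroup E] (g : ℂ → E) : ℕ∞ :=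
  ⨆ (m : ℕ) (_ : g =O[𝓝 0] fun t : ℂ => ‖t‖ ^ m), (m : ℕ∞)

/-- The D'Angelo 1-type at `p` computed with the local defining function `r`: the supremum of
`ν(r ∘ γ) / ν(γ - p)` over all nonconstant germs `γ` at `0` of holomorphic curves with
`γ(0) = p`. -/
noncomputable def dAngeloType {n : ℕ} (r : (Fin n → ℂ) → ℝ) (p : Fin n → ℂ) : ℝ≥0∞ :=
  ⨆ (γ : ℂ → Fin n → ℂ)
    (_ : AnalyticAt ℂ γ 0 ∧ γ 0 = p ∧ ¬ ∀ᶠ t in 𝓝 0, γ t = p),
    ((vanishingOrder (fun t => r (γ t)) : ℕ∞) : ℝ≥0∞) /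
      ((vanishingOrder (fun t => γ t - p) : ℕ∞) : ℝ≥0∞)

section PSH

lemma re_mean (h : ℂ → ℂ) (hh : Differentiable ℂ h) :
    Real.circleAverage (fun ζ => (h ζ).re) 0 1 = (h 0).re := by
  have h1 : Real.circleAverage h 0 1 = h 0 := DiffContOnCl.circleAverage hh.diffContOnCl
  have hint : CircleIntegrable h 0 1 := hh.continuous.continuousOn.circleIntegrable'
  have h2 := Complex.reCLM.circleAverage_comp_comm (c := 0) (R := 1) (f := h) hint
  have h3 : (Complex.reCLM ∘ h) = fun ζ => (h ζ).re := rfl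
  rw [h3] at h2
  rw [h2, h1]
  rfl

lemma submean_sum {n k : ℕ} (L : (Fin n → ℂ) → ℂ) (F : Fin k → (Fin n → ℂ) → ℂ) (c : Fin k → ℝ)
    (hL : Differentiable ℂ L) (hF : ∀ i, Differentiable ℂ (F i)) (hc : ∀ i, 0 ≤ c i)
    (a b : Fin n → ℂ) :
    (L a).re + ∑ i, c i * Complex.normSq (F i a) ≤
      Real.circleAverage (fun ζ : ℂ => (L (a + ζ • b)).re +
        ∑ i, c i * Complex.normSq (F i (a + ζ • b))) 0 1 := by
  have hline : Differentiable ℂ (fun ζ : ℂ => a + ζ • b) := by fun_prop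
  set h : ℂ → ℂ := fun ζ => L (a + ζ • b) + ∑ i, (c i : ℂ) *
    (2 * (starRingEnd ℂ) (F i a) * F i (a + ζ • b) - (Complex.normSq (F i a) : ℂ)) with hh
  have hd : Differentiable ℂ h := by
    refine (hL.comp hline).add ?_
    refine Differentiable.fun_sum fun i _ => ?_
    exact (((((hF i).comp hline).const_mul _).sub_const _).const_mul _)
  have hre : ∀ ζ, (h ζ).re = (L (a + ζ • b)).re + ∑ i, c i *
      (2 * ((F i a).re * (F i (a + ζ • b)).re + (F i a).im * (F i (a + ζ • b)).im)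
        - Complex.normSq (F i a)) := by
    intro ζ
    simp only [hh, Complex.add_re, Complex.re_sum]
    congr 1
    refine Finset.sum_congr rfl fun i _ => ?_
    simp only [Complex.sub_re, Complex.mul_re, Complex.conj_re, Complex.ofReal_im,
      Complex.conj_im, Complex.mul_im, Complex.ofReal_re, Complex.re_ofNat, Complex.im_ofNat]
    ring
  have h0 : (h 0).re = (L a).re + ∑ i, c i * Complex.normSq (F i a) := by
    rw [hre]
    simp only [zero_smul, add_zero]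
    congr 1
    refine Finset.sum_congr rfl fun i _ => ?_
    rw [Complex.normSq_apply]
    ring
  rw [← h0, ← re_mean h hd]
  apply Real.circleAverage_mono
  · exact (Complex.continuous_re.comp hd.continuous).continuousOn.circleIntegrable'
  · refine ContinuousOn.circleIntegrable' (Continuous.continuousOn ?_)
    refine (Complex.continuous_re.comp (hL.comp hline).continuous).add ?_
    refine continuous_finsetSum _ fun i _ => continuous_const.mul ?_
    exact Complex.continuous_normSq.comp ((hF i).comp hline).continuous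
  · intro ζ _
    rw [hre]
    gcongr with i _
    · exact hc i
    · rw [Complex.normSq_apply, Complex.normSq_apply]
      nlinarith [sq_nonneg ((F i a).re - (F i (a + ζ • b)).re),
        sq_nonneg ((F i a).im - (F i (a + ζ • b)).im)]

end PSH

section Pseudoconvex

/-- A bounded sublevel set of a continuous function satisfying the sub-mean value inequality on
all complex discs is pseudoconvex. -/
lemma isPseudoconvex_of_submean {n : ℕ} (r : (Fin n → ℂ) → ℝ) (hr : Continuous r)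
    (hsub : ∀ a b : Fin n → ℂ, r a ≤ Real.circleAverage (fun ζ : ℂ => r (a + ζ • b)) 0 1)
    (hb : Bornology.IsBounded {z | r z < 0}) : IsPseudoconvex {z | r z < 0} := by
  refine ⟨fun z => -(r z)⁻¹, ⟨?_, ?_⟩, ?_⟩
  · exact (hr.continuousOn.inv₀ (fun z hz => ne_of_lt hz)).neg
  · intro a b hab
    have ha : r a < 0 := by
      have := hab 0 (by simp)
      simpa using this
    have hcirc : ∀ ζ ∈ Metric.sphere (0 : ℂ) |1|, r (a + ζ • b) < 0 := by
      intro ζ hζ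
      refine hab ζ ?_
      simpa using hζ.le
    have hc1 : Continuous (fun ζ : ℂ => r (a + ζ • b)) := by fun_prop
    have hi1 : CircleIntegrable (fun ζ : ℂ => r (a + ζ • b)) 0 1 :=
      hc1.continuousOn.circleIntegrable'
    have hi2 : CircleIntegrable (fun ζ : ℂ => -(r (a + ζ • b))⁻¹) 0 1 :=
      ((hc1.continuousOn.inv₀ (fun z hz => ne_of_lt (hcirc z hz))).neg).circleIntegrable'
    have hi3 : CircleIntegrable (fun ζ : ℂ => ((r a)^2)⁻¹ * r (a + ζ • b) + (-2 * (r a)⁻¹)) 0 1 :=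
      ((hc1.const_mul _).add_const _).continuousOn.circleIntegrable'
    have hmono : Real.circleAverage (fun ζ : ℂ => ((r a)^2)⁻¹ * r (a + ζ • b) + (-2 * (r a)⁻¹)) 0 1
        ≤ Real.circleAverage (fun ζ : ℂ => -(r (a + ζ • b))⁻¹) 0 1 := by
      apply Real.circleAverage_mono hi3 hi2
      intro ζ hζ
      have hx := hcirc ζ hζ
      set x := r (a + ζ • b)
      set y := r a
      have hkey : -x⁻¹ - ((y^2)⁻¹ * x + (-2 * y⁻¹)) = (x - y)^2 * ((y^2)⁻¹ * (-x)⁻¹) := by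
        have hx0 : x ≠ 0 := ne_of_lt hx
        have hy0 : y ≠ 0 := ne_of_lt ha
        field_simp
        ring
      have hpos : 0 ≤ (x - y)^2 * ((y^2)⁻¹ * (-x)⁻¹) := by
        have : 0 < (-x)⁻¹ := inv_pos.mpr (by linarith)
        positivity
      linarith
    have heq : Real.circleAverage (fun ζ : ℂ => ((r a)^2)⁻¹ * r (a + ζ • b) + (-2 * (r a)⁻¹)) 0 1
        = ((r a)^2)⁻¹ * Real.circleAverage (fun ζ : ℂ => r (a + ζ • b)) 0 1 + (-2 * (r a)⁻¹) := by
      have h1 := Real.circleAverage_fun_add (c := 0) (R := 1)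
        (f₁ := fun ζ : ℂ => ((r a)^2)⁻¹ * r (a + ζ • b)) (f₂ := fun _ => (-2 * (r a)⁻¹))
        ((hc1.const_mul _).continuousOn.circleIntegrable') (circleIntegrable_const _ _ _)
      rw [h1, Real.circleAverage_const]
      congr 1
      exact Real.circleAverage_fun_smul (a := ((r a)^2)⁻¹) (f := fun ζ : ℂ => r (a + ζ • b))
    refine le_trans ?_ hmono
    rw [heq]
    have h2 := hsub a b
    have h3 : ((r a)^2)⁻¹ * r a ≤ ((r a)^2)⁻¹ *
        Real.circleAverage (fun ζ : ℂ => r (a + ζ • b)) 0 1 :=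
      mul_le_mul_of_nonneg_left h2 (by positivity)
    have h4 : ((r a)^2)⁻¹ * r a = (r a)⁻¹ := by
      field_simp
    have h5 : -(r a)⁻¹ = (r a)⁻¹ + (-2 * (r a)⁻¹) := by ring
    simp only
    rw [h5]
    linarith
  · intro c
    by_cases hc : 0 < c
    · have hsubset : {z | z ∈ {z | r z < 0} ∧ -(r z)⁻¹ < c} ⊆ {z | r z ≤ -c⁻¹} := by
        rintro z ⟨hz, hz2⟩
        simp only [mem_ofPred_eq] at hz hz2 ⊢
        have h1 : (-(r z))⁻¹ < c := by rw [inv_neg]; exact hz2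
        have h2 : c⁻¹ < -(r z) := by
          rw [inv_lt_comm₀ (by linarith) hc] at h1
          exact h1
        linarith
      have hclosed : IsClosed {z | r z ≤ -c⁻¹} := isClosed_le hr continuous_const
      have hcl := closure_minimal hsubset hclosed
      have hin : {z | r z ≤ -c⁻¹} ⊆ {z | r z < 0} := by
        intro z hz
        have : 0 < c⁻¹ := inv_pos.mpr hc
        simp only [mem_ofPred_eq] at hz ⊢
        linarith
      refine ⟨?_, hcl.trans hin⟩
      exact (Metric.isCompact_of_isClosed_isBounded hclosed (hb.subset hin)).of_isClosed_subset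
        isClosed_closure hcl
    · have hempty : {z | z ∈ {z | r z < 0} ∧ -(r z)⁻¹ < c} = ∅ := by
        ext z
        simp only [mem_ofPred_eq, mem_empty_iff_false, iff_false, not_and, not_lt]
        intro hz
        have : (r z)⁻¹ < 0 := inv_lt_zero.mpr hz
        linarith
      rw [hempty]
      simp

end Pseudoconvex

section Domains

/-- Defining function of the larger domain. -/
noncomputable def r₁ (z : Fin 3 → ℂ) : ℝ :=
  (z 0).re + Complex.normSq (z 0) + Complex.normSq (z 1) ^ 2 +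
    Complex.normSq (z 1) * Complex.normSq (z 2) ^ 3 + Complex.normSq (z 2) ^ 7

/-- Defining function of the smaller domain. -/
noncomputable def r₂ (z : Fin 3 → ℂ) : ℝ :=
  (z 0).re + 2 * Complex.normSq (z 0) + 2 * Complex.normSq (z 1) ^ 2 +
    2 * Complex.normSq (z 2) ^ 6

lemma contDiff_normSq_apply (i : Fin 3) :
    ContDiff ℝ ∞ (fun z : Fin 3 → ℂ => Complex.normSq (z i)) := by
  have h : (fun z : Fin 3 → ℂ => Complex.normSq (z i)) =
      fun z => Complex.reCLM (z i) * Complex.reCLM (z i) + Complex.imCLM (z i) * Complex.imCLM (z i) := by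
    ext z
    simp [Complex.normSq_apply]
  rw [h]
  fun_prop

lemma contDiff_re_apply (i : Fin 3) :
    ContDiff ℝ ∞ (fun z : Fin 3 → ℂ => (z i).re) := by
  have h : (fun z : Fin 3 → ℂ => (z i).re) = fun z => Complex.reCLM (z i) := by
    ext z
    simp
  rw [h]
  fun_prop

lemma contDiff_r₁ : ContDiff ℝ ∞ r₁ := by
  unfold r₁
  have h0 := contDiff_re_apply 0
  have h1 := contDiff_normSq_apply 0
  have h2 := contDiff_normSq_apply 1
  have h3 := contDiff_normSq_apply 2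
  exact ((((h0.add h1).add (h2.pow 2)).add (h2.mul (h3.pow 3))).add (h3.pow 7))

lemma contDiff_r₂ : ContDiff ℝ ∞ r₂ := by
  unfold r₂
  have h0 := contDiff_re_apply 0
  have h1 := contDiff_normSq_apply 0
  have h2 := contDiff_normSq_apply 1
  have h3 := contDiff_normSq_apply 2
  exact (((h0.add (contDiff_const.mul h1)).add (contDiff_const.mul (h2.pow 2))).add
    (contDiff_const.mul (h3.pow 6)))

lemma submean_r₁ (a b : Fin 3 → ℂ) :
    r₁ a ≤ Real.circleAverage (fun ζ : ℂ => r₁ (a + ζ • b)) 0 1 := by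
  have h := submean_sum (n := 3) (k := 4) (fun z => z 0)
    ![fun z => z 0, fun z => (z 1) ^ 2, fun z => z 1 * (z 2) ^ 3, fun z => (z 2) ^ 7]
    ![1, 1, 1, 1] (by fun_prop)
    (by intro i; fin_cases i <;> simp <;> fun_prop)
    (by intro i; fin_cases i <;> simp) a b
  simp only [Fin.sum_univ_four] at h
  simp [Complex.normSq_mul, map_pow] at h
  unfold r₁
  simp only [Pi.add_apply, Pi.smul_apply, smul_eq_mul]
  convert h using 1
  · ring
  · congr 1
    ext ζ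
    simp only [Complex.add_re, Complex.mul_re]
    ring

lemma submean_r₂ (a b : Fin 3 → ℂ) :
    r₂ a ≤ Real.circleAverage (fun ζ : ℂ => r₂ (a + ζ • b)) 0 1 := by
  have h := submean_sum (n := 3) (k := 3) (fun z => z 0)
    ![fun z => z 0, fun z => (z 1) ^ 2, fun z => (z 2) ^ 6]
    ![2, 2, 2] (by fun_prop)
    (by intro i; fin_cases i <;> simp <;> fun_prop)
    (by intro i; fin_cases i <;> simp) a b
  simp only [Fin.sum_univ_three] at h
  simp [map_pow] at h
  unfold r₂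
  simp only [Pi.add_apply, Pi.smul_apply, smul_eq_mul]
  convert h using 1
  · ring
  · congr 1
    ext ζ
    simp only [Complex.add_re, Complex.mul_re]
    ring

lemma re_add_normSq (w : ℂ) : -(1/4) ≤ w.re + Complex.normSq w := by
  rw [Complex.normSq_apply]
  nlinarith [sq_nonneg (w.re + 1/2), sq_nonneg w.im]

lemma re_add_two_normSq (w : ℂ) : -(1/8) ≤ w.re + 2 * Complex.normSq w := by
  rw [Complex.normSq_apply]
  nlinarith [sq_nonneg (w.re + 1/4), sq_nonneg w.im]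

lemma normSq_lt_one_of_pow {c : ℝ} {k : ℕ} (h : c ^ k < 1) : c < 1 := by
  by_contra hcon
  push Not at hcon
  exact absurd (one_le_pow₀ hcon (n := k)) (not_le.mpr h)

lemma bounds_r₂ {z : Fin 3 → ℂ} (hz : r₂ z ≤ 0) :
    Complex.normSq (z 0) ≤ 1 ∧ Complex.normSq (z 1) ≤ 1 ∧ Complex.normSq (z 2) < 1 := by
  unfold r₂ at hz
  have h0 := Complex.normSq_nonneg (z 0)
  have h1 := Complex.normSq_nonneg (z 1)
  have h2 := Complex.normSq_nonneg (z 2)
  have h3 := re_add_two_normSq (z 0)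
  have hre : |(z 0).re| ^ 2 ≤ Complex.normSq (z 0) := by
    rw [sq_abs, Complex.normSq_apply]; nlinarith [sq_nonneg (z 0).im]
  have h16 : 0 ≤ Complex.normSq (z 2) ^ 6 := by positivity
  refine ⟨?_, ?_, ?_⟩
  · by_contra hcon
    push Not at hcon
    have h4 : 2 * Complex.normSq (z 0) ≤ -(z 0).re := by nlinarith [sq_nonneg (Complex.normSq (z 1))]
    have h5 : Complex.normSq (z 0) < |(z 0).re| := by
      have := neg_le_abs (z 0).re
      linarith
    nlinarith [abs_nonneg (z 0).re]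
  · by_contra hcon
    push Not at hcon
    nlinarith
  · apply normSq_lt_one_of_pow (k := 6)
    nlinarith [sq_nonneg (Complex.normSq (z 1))]

lemma bounds_r₁ {z : Fin 3 → ℂ} (hz : r₁ z ≤ 0) :
    Complex.normSq (z 0) ≤ 1 ∧ Complex.normSq (z 1) ≤ 1 ∧ Complex.normSq (z 2) < 1 := by
  unfold r₁ at hz
  have h0 := Complex.normSq_nonneg (z 0)
  have h1 := Complex.normSq_nonneg (z 1)
  have h2 := Complex.normSq_nonneg (z 2)
  have h3 := re_add_normSq (z 0)
  have hre : |(z 0).re| ^ 2 ≤ Complex.normSq (z 0) := by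
    rw [sq_abs, Complex.normSq_apply]; nlinarith [sq_nonneg (z 0).im]
  have h17 : 0 ≤ Complex.normSq (z 2) ^ 7 := by positivity
  have h13 : 0 ≤ Complex.normSq (z 1) * Complex.normSq (z 2) ^ 3 := by positivity
  have h12 : 0 ≤ Complex.normSq (z 1) ^ 2 := by positivity
  refine ⟨?_, ?_, ?_⟩
  · by_contra hcon
    push Not at hcon
    have h4 : Complex.normSq (z 0) ≤ -(z 0).re := by linarith
    have h5 : Complex.normSq (z 0) ≤ |(z 0).re| := by
      have := neg_le_abs (z 0).re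
      linarith
    nlinarith [abs_nonneg (z 0).re]
  · by_contra hcon
    push Not at hcon
    nlinarith
  · apply normSq_lt_one_of_pow (k := 7)
    linarith

lemma norm_le_one_of_bounds {z : Fin 3 → ℂ} (h : Complex.normSq (z 0) ≤ 1 ∧
    Complex.normSq (z 1) ≤ 1 ∧ Complex.normSq (z 2) < 1) : ‖z‖ ≤ 1 := by
  have key : ∀ w : ℂ, Complex.normSq w ≤ 1 → ‖w‖ ≤ 1 := by
    intro w hw
    rw [Complex.normSq_eq_norm_sq] at hw
    nlinarith [norm_nonneg w]
  rw [pi_norm_le_iff_of_nonneg zero_le_one]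
  intro i
  fin_cases i
  · exact key _ h.1
  · exact key _ h.2.1
  · exact key _ h.2.2.le

lemma r₂_sub_r₁ {z : Fin 3 → ℂ} (h2' : Complex.normSq (z 2) ≤ 1) :
    Complex.normSq (z 0) + 1/2 * Complex.normSq (z 1) ^ 2 + 1/2 * Complex.normSq (z 2) ^ 6
      ≤ r₂ z - r₁ z := by
  unfold r₁ r₂
  have h0 := Complex.normSq_nonneg (z 0)
  have h1 := Complex.normSq_nonneg (z 1)
  have h2 := Complex.normSq_nonneg (z 2)
  set b := Complex.normSq (z 1)
  set c := Complex.normSq (z 2)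
  have hc7 : c ^ 7 ≤ c ^ 6 := by
    have : c ^ 7 = c ^ 6 * c := by ring
    rw [this]
    exact mul_le_of_le_one_right (by positivity) h2'
  nlinarith [sq_nonneg (b - c ^ 3)]

/-- The larger domain. -/
def Ω₁ : Set (Fin 3 → ℂ) := {z | r₁ z < 0}
/-- The smaller domain. -/
def Ω₂ : Set (Fin 3 → ℂ) := {z | r₂ z < 0}

lemma Ω₂_subset_Ω₁ : Ω₂ ⊆ Ω₁ := by
  intro z hz
  have hz' : r₂ z < 0 := hz
  have hb := bounds_r₂ hz'.le
  have h := r₂_sub_r₁ (z := z) hb.2.2.le
  have h0 := Complex.normSq_nonneg (z 0)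
  have : 0 ≤ Complex.normSq (z 1) ^ 2 := by positivity
  have : 0 ≤ Complex.normSq (z 2) ^ 6 := pow_nonneg (Complex.normSq_nonneg _) _
  show r₁ z < 0
  linarith

lemma isBounded_Ω₁ : Bornology.IsBounded Ω₁ := by
  refine (Metric.isBounded_closedBall (x := (0 : Fin 3 → ℂ)) (r := 1)).subset ?_
  intro z hz
  have hz' : r₁ z < 0 := hz
  simpa using norm_le_one_of_bounds (bounds_r₁ hz'.le)

lemma isBounded_Ω₂ : Bornology.IsBounded Ω₂ := isBounded_Ω₁.subset Ω₂_subset_Ω₁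

lemma r₁_zero : r₁ 0 = 0 := by simp [r₁]
lemma r₂_zero : r₂ 0 = 0 := by simp [r₂]

lemma frontier_Ω₁ : frontier Ω₁ ⊆ {z | r₁ z = 0} :=
  frontier_lt_subset_eq contDiff_r₁.continuous continuous_const

lemma frontier_Ω₂ : frontier Ω₂ ⊆ {z | r₂ z = 0} :=
  frontier_lt_subset_eq contDiff_r₂.continuous continuous_const

lemma isOpen_Ω₁ : IsOpen Ω₁ := isOpen_lt contDiff_r₁.continuous continuous_const
lemma isOpen_Ω₂ : IsOpen Ω₂ := isOpen_lt contDiff_r₂.continuous continuous_const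

/-- the point `(-t, 0, 0)` -/
noncomputable def pt (t : ℝ) : Fin 3 → ℂ := ![((-t : ℝ) : ℂ), 0, 0]

lemma r₁_pt (t : ℝ) : r₁ (pt t) = -t + t ^ 2 := by
  simp [r₁, pt, Complex.normSq_apply]; ring

lemma r₂_pt (t : ℝ) : r₂ (pt t) = -t + 2 * t ^ 2 := by
  simp [r₂, pt, Complex.normSq_apply]; ring

lemma continuous_pt : Continuous pt := by
  unfold pt
  refine continuous_pi fun i => ?_
  fin_cases i
  · simp; fun_prop
  · simp; fun_prop
  · simp; fun_prop

lemma pt_zero : pt 0 = 0 := by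
  unfold pt
  ext i
  fin_cases i <;> simp

lemma zero_mem_frontier (r : (Fin 3 → ℂ) → ℝ) (hr : Continuous r) (h0 : r 0 = 0)
    (hpt : ∀ t : ℝ, 0 < t → t < 1/4 → r (pt t) < 0) : (0 : Fin 3 → ℂ) ∈ frontier {z | r z < 0} := by
  rw [frontier, (isOpen_lt hr continuous_const).interior_eq]
  refine ⟨?_, by simp [h0]⟩
  have h1 : Tendsto pt (𝓝[>] 0) (𝓝 0) := by
    have := continuous_pt.tendsto 0
    rw [pt_zero] at this
    exact this.mono_left nhdsWithin_le_nhds
  refine mem_closure_of_tendsto h1 ?_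
  filter_upwards [Ioo_mem_nhdsGT (show (0:ℝ) < 1/4 by norm_num)] with t ht
  exact hpt t ht.1 ht.2

lemma zero_mem_frontier₁ : (0 : Fin 3 → ℂ) ∈ frontier Ω₁ :=
  zero_mem_frontier r₁ contDiff_r₁.continuous r₁_zero (fun t h1 h2 => by rw [r₁_pt]; nlinarith)

lemma zero_mem_frontier₂ : (0 : Fin 3 → ℂ) ∈ frontier Ω₂ :=
  zero_mem_frontier r₂ contDiff_r₂.continuous r₂_zero (fun t h1 h2 => by rw [r₂_pt]; nlinarith)

lemma frontier_inter : frontier Ω₁ ∩ frontier Ω₂ = {0} := by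
  ext z
  constructor
  · rintro ⟨h1, h2⟩
    have h1' : r₁ z = 0 := frontier_Ω₁ h1
    have h2' : r₂ z = 0 := frontier_Ω₂ h2
    have hb := bounds_r₂ h2'.le
    have h := r₂_sub_r₁ (z := z) hb.2.2.le
    rw [h1', h2', sub_zero] at h
    have h0 := Complex.normSq_nonneg (z 0)
    have h3 : 0 ≤ Complex.normSq (z 1) ^ 2 := by positivity
    have h4 : 0 ≤ Complex.normSq (z 2) ^ 6 := pow_nonneg (Complex.normSq_nonneg _) _
    have e0 : Complex.normSq (z 0) = 0 := by linarith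
    have e1 : Complex.normSq (z 1) ^ 2 = 0 := by linarith
    have e2 : Complex.normSq (z 2) ^ 6 = 0 := by linarith
    have e1' := pow_eq_zero_iff (two_ne_zero) |>.mp e1
    have e2' := pow_eq_zero_iff (by norm_num : (6:ℕ) ≠ 0) |>.mp e2
    rw [mem_singleton_iff]
    ext i
    fin_cases i
    · simpa using e0
    · simpa using e1'
    · simpa using e2'
  · rintro rfl
    exact ⟨zero_mem_frontier₁, zero_mem_frontier₂⟩

end Domains

section DomainProps

lemma normSq_smul_real (s : ℝ) (w : ℂ) : Complex.normSq ((s : ℂ) * w) = s ^ 2 * Complex.normSq w := by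
  rw [Complex.normSq_mul, Complex.normSq_ofReal]; ring

lemma isConnected_Ω₁ : IsConnected Ω₁ := by
  have hstar : StarConvex ℝ (pt (1/2)) Ω₁ := by
    intro z hz s t hs ht hst
    have hz' : r₁ z < 0 := hz
    show r₁ _ < 0
    unfold r₁ at hz' ⊢
    have e0 : (s • pt (1/2) + t • z) 0 = ((-(s/2) : ℝ) : ℂ) + (t : ℂ) * z 0 := by
      simp [pt]; ring
    have e1 : (s • pt (1/2) + t • z) 1 = (t : ℂ) * z 1 := by
      simp [pt]
    have e2 : (s • pt (1/2) + t • z) 2 = (t : ℂ) * z 2 := by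
      simp [pt]
    rw [e0, e1, e2, normSq_smul_real, normSq_smul_real]
    have hs' : s = 1 - t := by linarith
    have ht1 : t ≤ 1 := by linarith
    subst hs'
    have h0 := Complex.normSq_nonneg (z 0)
    have h1 := Complex.normSq_nonneg (z 1)
    have h2 := Complex.normSq_nonneg (z 2)
    set b := Complex.normSq (z 1)
    set c := Complex.normSq (z 2)
    have hw : (((-((1 - t)/2) : ℝ) : ℂ) + (t : ℂ) * z 0).re +
        Complex.normSq (((-((1 - t)/2) : ℝ) : ℂ) + (t : ℂ) * z 0) =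
        t ^ 2 * ((z 0).re + Complex.normSq (z 0) + 1/4) - 1/4 := by
      simp only [Complex.normSq_apply, Complex.add_re, Complex.add_im, Complex.mul_re,
        Complex.mul_im, Complex.ofReal_re, Complex.ofReal_im]
      ring
    rw [hw]
    have ht2 : t ^ 2 ≤ 1 := by nlinarith
    have k1 : (t ^ 2 * b) ^ 2 ≤ t ^ 2 * b ^ 2 := by
      have : (t ^ 2 * b) ^ 2 = t ^ 2 * (t ^ 2 * b ^ 2) := by ring
      rw [this]
      apply mul_le_mul_of_nonneg_left _ (by positivity)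
      exact mul_le_of_le_one_left (by positivity) ht2
    have k2 : t ^ 2 * b * (t ^ 2 * c) ^ 3 ≤ t ^ 2 * (b * c ^ 3) := by
      have : t ^ 2 * b * (t ^ 2 * c) ^ 3 = t ^ 2 * ((t ^ 2) ^ 3 * (b * c ^ 3)) := by ring
      rw [this]
      apply mul_le_mul_of_nonneg_left _ (by positivity)
      exact mul_le_of_le_one_left (by positivity) (pow_le_one₀ (by positivity) ht2)
    have k3 : (t ^ 2 * c) ^ 7 ≤ t ^ 2 * c ^ 7 := by
      have : (t ^ 2 * c) ^ 7 = t ^ 2 * ((t ^ 2) ^ 6 * c ^ 7) := by ring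
      rw [this]
      apply mul_le_mul_of_nonneg_left _ (by positivity)
      exact mul_le_of_le_one_left (by positivity) (pow_le_one₀ (by positivity) ht2)
    by_cases ht0 : t = 0
    · subst ht0
      norm_num
    · have ht3 : 0 < t ^ 2 := by positivity
      have h5 : t ^ 2 * ((z 0).re + Complex.normSq (z 0) + b ^ 2 + b * c ^ 3 + c ^ 7) < 0 :=
        mul_neg_of_pos_of_neg ht3 hz'
      nlinarith
  have hne : pt (1/2) ∈ Ω₁ := by show r₁ _ < 0; rw [r₁_pt]; norm_num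
  exact (hstar.isPathConnected hne).isConnected

lemma isConnected_Ω₂ : IsConnected Ω₂ := by
  have hstar : StarConvex ℝ (pt (1/4)) Ω₂ := by
    intro z hz s t hs ht hst
    have hz' : r₂ z < 0 := hz
    show r₂ _ < 0
    unfold r₂ at hz' ⊢
    have e0 : (s • pt (1/4) + t • z) 0 = ((-(s/4) : ℝ) : ℂ) + (t : ℂ) * z 0 := by
      simp [pt]; ring
    have e1 : (s • pt (1/4) + t • z) 1 = (t : ℂ) * z 1 := by
      simp [pt]
    have e2 : (s • pt (1/4) + t • z) 2 = (t : ℂ) * z 2 := by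
      simp [pt]
    rw [e0, e1, e2, normSq_smul_real, normSq_smul_real]
    have hs' : s = 1 - t := by linarith
    have ht1 : t ≤ 1 := by linarith
    subst hs'
    have h0 := Complex.normSq_nonneg (z 0)
    have h1 := Complex.normSq_nonneg (z 1)
    have h2 := Complex.normSq_nonneg (z 2)
    set b := Complex.normSq (z 1)
    set c := Complex.normSq (z 2)
    have hw : (((-((1 - t)/4) : ℝ) : ℂ) + (t : ℂ) * z 0).re +
        2 * Complex.normSq (((-((1 - t)/4) : ℝ) : ℂ) + (t : ℂ) * z 0) =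
        t ^ 2 * ((z 0).re + 2 * Complex.normSq (z 0) + 1/8) - 1/8 := by
      simp only [Complex.normSq_apply, Complex.add_re, Complex.add_im, Complex.mul_re,
        Complex.mul_im, Complex.ofReal_re, Complex.ofReal_im]
      ring
    rw [hw]
    have ht2 : t ^ 2 ≤ 1 := by nlinarith
    have k1 : (t ^ 2 * b) ^ 2 ≤ t ^ 2 * b ^ 2 := by
      have : (t ^ 2 * b) ^ 2 = t ^ 2 * (t ^ 2 * b ^ 2) := by ring
      rw [this]
      apply mul_le_mul_of_nonneg_left _ (by positivity)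
      exact mul_le_of_le_one_left (by positivity) ht2
    have k3 : (t ^ 2 * c) ^ 6 ≤ t ^ 2 * c ^ 6 := by
      have : (t ^ 2 * c) ^ 6 = t ^ 2 * ((t ^ 2) ^ 5 * c ^ 6) := by ring
      rw [this]
      apply mul_le_mul_of_nonneg_left _ (by positivity)
      exact mul_le_of_le_one_left (by positivity) (pow_le_one₀ (by positivity) ht2)
    by_cases ht0 : t = 0
    · subst ht0
      norm_num
    · have ht3 : 0 < t ^ 2 := by positivity
      have h5 : t ^ 2 * ((z 0).re + 2 * Complex.normSq (z 0) + 2 * b ^ 2 + 2 * c ^ 6) < 0 :=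
        mul_neg_of_pos_of_neg ht3 hz'
      nlinarith
  have hne : pt (1/4) ∈ Ω₂ := by show r₂ _ < 0; rw [r₂_pt]; norm_num
  exact (hstar.isPathConnected hne).isConnected

/-- directional derivative along a line -/
lemma hasDerivAt_line (r : (Fin 3 → ℂ) → ℝ) (hr : ContDiff ℝ ∞ r) (p v : Fin 3 → ℂ) :
    HasDerivAt (fun s : ℝ => r (p + s • v)) (fderiv ℝ r p v) 0 := by
  have h1 : HasFDerivAt r (fderiv ℝ r p) (p + (0:ℝ) • v) := by
    have := (hr.differentiable (by simp)).differentiableAt (x := p)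
    simpa using this.hasFDerivAt
  have h2 : HasDerivAt (fun s : ℝ => p + s • v) v 0 := by
    simpa using ((hasDerivAt_id (0:ℝ)).smul_const v).const_add p
  exact h1.comp_hasDerivAt 0 h2

lemma fderiv_ne_zero_of_line (r : (Fin 3 → ℂ) → ℝ) (hr : ContDiff ℝ ∞ r) (p v : Fin 3 → ℂ)
    (c : ℝ) (hc : HasDerivAt (fun s : ℝ => r (p + s • v)) c 0) (hc0 : c ≠ 0) :
    fderiv ℝ r p ≠ 0 := by
  intro h
  have h1 := hasDerivAt_line r hr p v
  rw [h] at h1
  exact hc0 (by simpa using hc.unique h1)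

lemma fderiv_r₁_ne (p : Fin 3 → ℂ) (hp : r₁ p = 0) : fderiv ℝ r₁ p ≠ 0 := by
  by_cases h0 : p = 0
  · subst h0
    refine fderiv_ne_zero_of_line r₁ contDiff_r₁ 0 (pt 1) (-1) ?_ (by norm_num)
    have e : (fun s : ℝ => r₁ (0 + s • pt 1)) = fun s => -s + s ^ 2 := by
      ext s
      have : (0 : Fin 3 → ℂ) + s • pt 1 = pt s := by
        ext i; fin_cases i <;> simp [pt]
      rw [this, r₁_pt]
    rw [e]
    have := ((hasDerivAt_id' (0:ℝ)).fun_neg).fun_add ((hasDerivAt_id' (0:ℝ)).fun_pow 2)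
    exact this.congr_deriv (by norm_num)
  · set a := Complex.normSq (p 0) with ha
    set b := Complex.normSq (p 1) with hb
    set c := Complex.normSq (p 2) with hc
    refine fderiv_ne_zero_of_line r₁ contDiff_r₁ p p ((p 0).re + 2 * a + 4 * b ^ 2 +
      8 * (b * c ^ 3) + 14 * c ^ 7) ?_ ?_
    · have e : (fun s : ℝ => r₁ (p + s • p)) = fun s => (1 + s) * (p 0).re + (1 + s) ^ 2 * a +
          (1 + s) ^ 4 * b ^ 2 + (1 + s) ^ 8 * (b * c ^ 3) + (1 + s) ^ 14 * c ^ 7 := by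
        ext s
        have e' : ∀ i, (p + s • p) i = ((1 + s : ℝ) : ℂ) * p i := by
          intro i; simp; ring
        unfold r₁
        rw [e', e', e', normSq_smul_real, normSq_smul_real, normSq_smul_real,
          Complex.re_ofReal_mul]
        ring
      rw [e]
      have hb1 : HasDerivAt (fun s : ℝ => 1 + s) 1 0 := by
        simpa using (hasDerivAt_id (0:ℝ)).const_add 1
      have := ((((hb1.mul_const (p 0).re).fun_add ((hb1.fun_pow 2).mul_const a)).fun_add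
        ((hb1.fun_pow 4).mul_const (b ^ 2))).fun_add ((hb1.fun_pow 8).mul_const (b * c ^ 3))).fun_add
        ((hb1.fun_pow 14).mul_const (c ^ 7))
      exact this.congr_deriv (by norm_num)
    · intro hcon
      have h1 : (p 0).re + a + b ^ 2 + b * c ^ 3 + c ^ 7 = 0 := hp
      have ha0 : 0 ≤ a := Complex.normSq_nonneg _
      have hb0 : 0 ≤ b := Complex.normSq_nonneg _
      have hc0 : 0 ≤ c := Complex.normSq_nonneg _
      have hb2 : 0 ≤ b ^ 2 := by positivity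
      have hbc : 0 ≤ b * c ^ 3 := by positivity
      have hc7 : 0 ≤ c ^ 7 := by positivity
      have e0 : a = 0 := by linarith
      have e1 : b ^ 2 = 0 := by linarith
      have e2 : c ^ 7 = 0 := by linarith
      have e1' := pow_eq_zero_iff (two_ne_zero) |>.mp e1
      have e2' := pow_eq_zero_iff (by norm_num : (7:ℕ) ≠ 0) |>.mp e2
      apply h0
      ext i
      fin_cases i
      · exact Complex.normSq_eq_zero.mp e0
      · exact Complex.normSq_eq_zero.mp e1'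
      · exact Complex.normSq_eq_zero.mp e2'

lemma fderiv_r₂_ne (p : Fin 3 → ℂ) (hp : r₂ p = 0) : fderiv ℝ r₂ p ≠ 0 := by
  by_cases h0 : p = 0
  · subst h0
    refine fderiv_ne_zero_of_line r₂ contDiff_r₂ 0 (pt 1) (-1) ?_ (by norm_num)
    have e : (fun s : ℝ => r₂ (0 + s • pt 1)) = fun s => -s + 2 * s ^ 2 := by
      ext s
      have : (0 : Fin 3 → ℂ) + s • pt 1 = pt s := by
        ext i; fin_cases i <;> simp [pt]
      rw [this, r₂_pt]
    rw [e]
    have := ((hasDerivAt_id' (0:ℝ)).fun_neg).fun_add (((hasDerivAt_id' (0:ℝ)).fun_pow 2).const_mul 2)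
    exact this.congr_deriv (by norm_num)
  · set a := Complex.normSq (p 0) with ha
    set b := Complex.normSq (p 1) with hb
    set c := Complex.normSq (p 2) with hc
    refine fderiv_ne_zero_of_line r₂ contDiff_r₂ p p ((p 0).re + 2 * (2 * a) + 4 * (2 * b ^ 2) +
      12 * (2 * c ^ 6)) ?_ ?_
    · have e : (fun s : ℝ => r₂ (p + s • p)) = fun s => (1 + s) * (p 0).re + (1 + s) ^ 2 * (2 * a) +
          (1 + s) ^ 4 * (2 * b ^ 2) + (1 + s) ^ 12 * (2 * c ^ 6) := by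
        ext s
        have e' : ∀ i, (p + s • p) i = ((1 + s : ℝ) : ℂ) * p i := by
          intro i; simp; ring
        unfold r₂
        rw [e', e', e', normSq_smul_real, normSq_smul_real, normSq_smul_real,
          Complex.re_ofReal_mul]
        ring
      rw [e]
      have hb1 : HasDerivAt (fun s : ℝ => 1 + s) 1 0 := by
        simpa using (hasDerivAt_id (0:ℝ)).const_add 1
      have := (((hb1.mul_const (p 0).re).fun_add ((hb1.fun_pow 2).mul_const (2 * a))).fun_add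
        ((hb1.fun_pow 4).mul_const (2 * b ^ 2))).fun_add ((hb1.fun_pow 12).mul_const (2 * c ^ 6))
      exact this.congr_deriv (by norm_num)
    · intro hcon
      have h1 : (p 0).re + 2 * a + 2 * b ^ 2 + 2 * c ^ 6 = 0 := hp
      have ha0 : 0 ≤ a := Complex.normSq_nonneg _
      have hb0 : 0 ≤ b := Complex.normSq_nonneg _
      have hc0 : 0 ≤ c := Complex.normSq_nonneg _
      have hb2 : 0 ≤ b ^ 2 := by positivity
      have hc7 : 0 ≤ c ^ 6 := by positivity
      have e0 : a = 0 := by linarith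
      have e1 : b ^ 2 = 0 := by linarith
      have e2 : c ^ 6 = 0 := by linarith
      have e1' := pow_eq_zero_iff (two_ne_zero) |>.mp e1
      have e2' := pow_eq_zero_iff (by norm_num : (6:ℕ) ≠ 0) |>.mp e2
      apply h0
      ext i
      fin_cases i
      · exact Complex.normSq_eq_zero.mp e0
      · exact Complex.normSq_eq_zero.mp e1'
      · exact Complex.normSq_eq_zero.mp e2'

lemma isLocalDefiningFunction_of (r : (Fin 3 → ℂ) → ℝ) (hr : ContDiff ℝ ∞ r) (p : Fin 3 → ℂ)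
    (hp : fderiv ℝ r p ≠ 0) : IsLocalDefiningFunction {z | r z < 0} p r := by
  refine ⟨{z | fderiv ℝ r z ≠ 0}, ?_, hp, hr.contDiffOn, fun z hz => hz, ?_⟩
  · have : Continuous (fderiv ℝ r) := hr.continuous_fderiv (by simp)
    exact isOpen_ne_fun this continuous_const
  · ext z
    simp only [mem_inter_iff, mem_ofPred_eq]
    tauto

lemma isDomain_Ω₁ : IsSmoothBoundedPseudoconvexDomain Ω₁ where
  isOpen := isOpen_Ω₁
  isConnected := isConnected_Ω₁
  isBounded := isBounded_Ω₁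
  smoothBoundary := fun p hp =>
    ⟨r₁, isLocalDefiningFunction_of r₁ contDiff_r₁ p (fderiv_r₁_ne p (frontier_Ω₁ hp))⟩
  pseudoconvex := isPseudoconvex_of_submean r₁ contDiff_r₁.continuous submean_r₁ isBounded_Ω₁

lemma isDomain_Ω₂ : IsSmoothBoundedPseudoconvexDomain Ω₂ where
  isOpen := isOpen_Ω₂
  isConnected := isConnected_Ω₂
  isBounded := isBounded_Ω₂
  smoothBoundary := fun p hp =>
    ⟨r₂, isLocalDefiningFunction_of r₂ contDiff_r₂ p (fderiv_r₂_ne p (frontier_Ω₂ hp))⟩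
  pseudoconvex := isPseudoconvex_of_submean r₂ contDiff_r₂.continuous submean_r₂ isBounded_Ω₂

end DomainProps

section TypeLemmas

lemma eq_zero_of_mem_frontier {n : ℕ} {Ω : Set (Fin n → ℂ)} {p : Fin n → ℂ}
    {r : (Fin n → ℂ) → ℝ} (hp : p ∈ frontier Ω) {U : Set (Fin n → ℂ)} (hU : IsOpen U) (hpU : p ∈ U)
    (hr : ContinuousOn r U) (h : Ω ∩ U = {z | z ∈ U ∧ r z < 0}) : r p = 0 := by
  have hcont : ContinuousAt r p := hr.continuousAt (hU.mem_nhds hpU)
  rcases lt_trichotomy (r p) 0 with hlt | heq | hgt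
  · exfalso
    have h1 : ∀ᶠ z in 𝓝 p, z ∈ U ∧ r z < 0 :=
      (hU.eventually_mem hpU).and (hcont.eventually_lt continuousAt_const hlt)
    have h2 : Ω ∈ 𝓝 p := by
      filter_upwards [h1] with z hz
      have : z ∈ Ω ∩ U := by rw [h]; exact hz
      exact this.1
    exact hp.2 (mem_interior_iff_mem_nhds.mpr h2)
  · exact heq
  · exfalso
    have h1 : ∀ᶠ z in 𝓝 p, z ∈ U ∧ 0 < r z :=
      (hU.eventually_mem hpU).and (continuousAt_const.eventually_lt hcont hgt)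
    have h2 := mem_closure_iff_frequently.mp hp.1
    obtain ⟨z, hz1, hz2⟩ := (h2.and_eventually h1).exists
    have : z ∈ Ω ∩ U := ⟨hz1, hz2.1⟩
    rw [h] at this
    exact absurd this.2 (not_lt.mpr hz2.2.le)

/-- Two local defining functions of the same domain are comparable. -/
lemma isBigO_definingFunction {n : ℕ} {Ω : Set (Fin n → ℂ)} {p : Fin n → ℂ}
    {r r' : (Fin n → ℂ) → ℝ} (hp : p ∈ frontier Ω)
    (h : IsLocalDefiningFunction Ω p r) (h' : IsLocalDefiningFunction Ω p r') :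
    r' =O[𝓝 p] r := by
  obtain ⟨U, hU, hpU, hrU, hdU, hΩU⟩ := h
  obtain ⟨U', hU', hpU', hrU', hdU', hΩU'⟩ := h'
  have hrp : r p = 0 := eq_zero_of_mem_frontier hp hU hpU hrU.continuousOn hΩU
  -- a direction with derivative one
  obtain ⟨v, hv⟩ : ∃ v, fderiv ℝ r p v = 1 := by
    have h0 := hdU p hpU
    have : ∃ w, fderiv ℝ r p w ≠ 0 := by
      by_contra hcon
      push Not at hcon
      exact h0 (ContinuousLinearMap.ext hcon)
    obtain ⟨w, hw⟩ := this
    refine ⟨(fderiv ℝ r p w)⁻¹ • w, ?_⟩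
    rw [map_smul, smul_eq_mul, inv_mul_cancel₀ hw]
  have hv0 : v ≠ 0 := by
    rintro rfl
    simp at hv
  have hvn : 0 < ‖v‖ := norm_pos_iff.mpr hv0
  have hcd : ContinuousOn (fderiv ℝ r) U := hrU.continuousOn_fderiv_of_isOpen hU (by simp)
  have hcdv : ContinuousAt (fun z => fderiv ℝ r z v) p :=
    (hcd.continuousAt (hU.mem_nhds hpU)).clm_apply continuousAt_const
  have hev1 : ∀ᶠ z in 𝓝 p, (1/2 : ℝ) < fderiv ℝ r z v := by
    apply continuousAt_const.eventually_lt hcdv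
    rw [hv]; norm_num
  have hr'at : ContDiffAt ℝ 1 r' p :=
    (hrU'.contDiffAt (hU'.mem_nhds hpU')).of_le (by simp)
  obtain ⟨L, T, hT, hLip⟩ := hr'at.exists_lipschitzOnWith
  obtain ⟨δ, hδ, hball⟩ := Metric.eventually_nhds_iff_ball.mp
    (((hev1.and (hU.mem_nhds hpU)).and (hU'.mem_nhds hpU')).and hT)
  -- hball : ∀ z ∈ ball p δ, ...
  set σ : ℝ := δ / (2 * ‖v‖) with hσ
  have hσ0 : 0 < σ := by positivity
  have hσv : σ * ‖v‖ = δ / 2 := by
    rw [hσ]; field_simp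
  have hcr : ContinuousAt r p := hrU.continuousOn.continuousAt (hU.mem_nhds hpU)
  have hev2 : ∀ᶠ z in 𝓝 p, |r z| < σ / 2 := by
    have h1 : ContinuousAt (fun z => |r z|) p := hcr.abs
    apply h1.eventually_lt continuousAt_const
    rw [hrp, abs_zero]; positivity
  refine IsBigO.of_bound (2 * L * ‖v‖) ?_
  filter_upwards [hev2, Metric.ball_mem_nhds p (half_pos hδ)] with z hz1 hz2
  have hline : ∀ s ∈ Icc (-σ) σ, z + s • v ∈ Metric.ball p δ := by
    intro s hs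
    rw [mem_ball_iff_norm]
    have h1 : z + s • v - p = (z - p) + s • v := by abel
    rw [h1]
    refine (norm_add_le _ _).trans_lt ?_
    rw [norm_smul]
    have h2 : ‖s‖ ≤ σ := by rw [Real.norm_eq_abs, abs_le]; exact hs
    have h3 : ‖s‖ * ‖v‖ ≤ δ / 2 := by
      rw [← hσv]; exact mul_le_mul_of_nonneg_right h2 hvn.le
    have h4 : ‖z - p‖ < δ / 2 := by rwa [← mem_ball_iff_norm]
    linarith
  have hder : ∀ s ∈ Icc (-σ) σ, HasDerivAt (fun s : ℝ => r (z + s • v))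
      (fderiv ℝ r (z + s • v) v) s := by
    intro s hs
    have hmem := (hball _ (hline s hs)).1.1.2
    have h1 : HasFDerivAt r (fderiv ℝ r (z + s • v)) (z + s • v) :=
      ((hrU.differentiableOn (by simp)).differentiableAt (hU.mem_nhds hmem)).hasFDerivAt
    have h2 : HasDerivAt (fun s : ℝ => z + s • v) v s := by
      simpa using ((hasDerivAt_id s).smul_const v).const_add z
    exact h1.comp_hasDerivAt s h2
  have hcontg : ContinuousOn (fun s : ℝ => r (z + s • v)) (Icc (-σ) σ) :=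
    fun s hs => (hder s hs).continuousAt.continuousWithinAt
  have hmvt : ∀ x ∈ Icc (-σ) σ, ∀ y ∈ Icc (-σ) σ, x ≤ y →
      (1/2 : ℝ) * (y - x) ≤ r (z + y • v) - r (z + x • v) := by
    apply (convex_Icc (-σ) σ).mul_sub_le_image_sub_of_le_deriv hcontg
    · intro s hs
      exact (hder s (interior_subset hs)).differentiableAt.differentiableWithinAt
    · intro s hs
      rw [(hder s (interior_subset hs)).deriv]
      exact (hball _ (hline s (interior_subset hs))).1.1.1.le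
  have habs := abs_lt.mp hz1
  have hmem0 : (0:ℝ) ∈ Icc (-σ) σ := ⟨by linarith, by linarith⟩
  have hmem1 : -(2 * r z) ∈ Icc (-σ) σ := ⟨by linarith, by linarith⟩
  obtain ⟨s, hs1, hs2, hs3⟩ : ∃ s, s ∈ Ioo (-σ) σ ∧ |s| ≤ 2 * |r z| ∧ r (z + s • v) = 0 := by
    rcases le_total 0 (r z) with hpos | hneg
    · have h1 := hmvt _ hmem1 _ hmem0 (by linarith)
      simp only [zero_smul, add_zero] at h1
      have h2 : r (z + (-(2 * r z)) • v) ≤ 0 := by linarith
      have hsub : Icc (-(2 * r z)) 0 ⊆ Icc (-σ) σ := Icc_subset_Icc (by linarith) (by linarith)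
      have h3 := intermediate_value_Icc (show -(2 * r z) ≤ 0 by linarith) (hcontg.mono hsub)
      obtain ⟨s, hs, hs0⟩ := h3 (show (0:ℝ) ∈ Icc _ _ from ⟨h2, by simpa using hpos⟩)
      refine ⟨s, ⟨by linarith [hs.1], by linarith [hs.2]⟩, ?_, hs0⟩
      rw [abs_of_nonneg hpos, abs_of_nonpos hs.2]
      linarith [hs.1]
    · have h1 := hmvt _ hmem0 _ hmem1 (by linarith)
      simp only [zero_smul, add_zero] at h1
      have h2 : 0 ≤ r (z + (-(2 * r z)) • v) := by linarith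
      have hsub : Icc 0 (-(2 * r z)) ⊆ Icc (-σ) σ := Icc_subset_Icc (by linarith) (by linarith)
      have h3 := intermediate_value_Icc (show 0 ≤ -(2 * r z) by linarith) (hcontg.mono hsub)
      obtain ⟨s, hs, hs0⟩ := h3 (show (0:ℝ) ∈ Icc _ _ from ⟨by simpa using hneg, h2⟩)
      refine ⟨s, ⟨by linarith [hs.1], by linarith [hs.2]⟩, ?_, hs0⟩
      rw [abs_of_nonpos hneg, abs_of_nonneg hs.1]
      linarith [hs.2]
  have hs' : s ∈ Icc (-σ) σ := Ioo_subset_Icc_self hs1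
  set z' := z + s • v with hz'
  have hz'b := hball _ (hline s hs')
  have hz'U : z' ∈ U := hz'b.1.1.2
  have hz'U' : z' ∈ U' := hz'b.1.2
  have hr'0 : r' z' = 0 := by
    apply le_antisymm
    · -- limit from inside
      have hcr' : ContinuousAt r' z' := hrU'.continuousOn.continuousAt (hU'.mem_nhds hz'U')
      have htend : Tendsto (fun ε : ℝ => z + (s - ε) • v) (𝓝[>] 0) (𝓝 z') := by
        have : Continuous (fun ε : ℝ => z + (s - ε) • v) := by fun_prop
        have h1 := this.tendsto 0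
        simp only [sub_zero] at h1
        exact h1.mono_left nhdsWithin_le_nhds
      have hlim : Tendsto (fun ε : ℝ => r' (z + (s - ε) • v)) (𝓝[>] 0) (𝓝 (r' z')) :=
        hcr'.tendsto.comp htend
      refine le_of_tendsto hlim ?_
      filter_upwards [Ioo_mem_nhdsGT (show (0:ℝ) < s + σ by linarith [hs1.1])] with ε hε
      have hmem : s - ε ∈ Icc (-σ) σ := ⟨by linarith [hε.2], by linarith [hs1.2, hε.1]⟩
      have h1 := hmvt _ hmem _ hs' (by linarith [hε.1])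
      rw [← hz', hs3] at h1
      have h2 : r (z + (s - ε) • v) < 0 := by
        have := hε.1
        nlinarith
      have hb := hball _ (hline _ hmem)
      have h3 : z + (s - ε) • v ∈ Ω ∩ U := by rw [hΩU]; exact ⟨hb.1.1.2, h2⟩
      have h4 : z + (s - ε) • v ∈ Ω ∩ U' := ⟨h3.1, hb.1.2⟩
      rw [hΩU'] at h4
      exact h4.2.le
    · by_contra hcon
      push Not at hcon
      have h1 : z' ∈ Ω ∩ U' := by rw [hΩU']; exact ⟨hz'U', hcon⟩
      have h2 : z' ∈ Ω ∩ U := ⟨h1.1, hz'U⟩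
      rw [hΩU] at h2
      have h3 := h2.2
      rw [hs3] at h3
      exact lt_irrefl _ h3
  have hzb : z ∈ T := (hball z (Metric.ball_subset_ball (by linarith) hz2)).2
  have hdist := hLip.dist_le_mul z hzb z' hz'b.2
  rw [Real.dist_eq, hr'0, sub_zero, dist_eq_norm] at hdist
  have h5 : z - z' = -(s • v) := by rw [hz']; abel
  rw [h5, norm_neg, norm_smul] at hdist
  rw [Real.norm_eq_abs, Real.norm_eq_abs]
  rw [Real.norm_eq_abs] at hdist
  calc |r' z| ≤ L * (|s| * ‖v‖) := hdist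
    _ ≤ L * ((2 * |r z|) * ‖v‖) := by gcongr
    _ = 2 * L * ‖v‖ * |r z| := by ring

lemma vanishingOrder_mono {E F : Type*} [NormedAddCommGroup E] [NormedAddCommGroup F]
    {f : ℂ → E} {g : ℂ → F} (h : f =O[𝓝 0] g) : vanishingOrder g ≤ vanishingOrder f := by
  unfold vanishingOrder
  refine iSup₂_le fun m hm => ?_
  exact le_iSup₂ (f := fun (m : ℕ) (_ : f =O[𝓝 0] fun t : ℂ => ‖t‖ ^ m) => (m : ℕ∞)) m (h.trans hm)

lemma le_vanishingOrder {E : Type*} [NormedAddCommGroup E] {g : ℂ → E} {m : ℕ}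
    (h : g =O[𝓝 0] fun t : ℂ => ‖t‖ ^ m) : (m : ℕ∞) ≤ vanishingOrder g :=
  le_iSup₂ (f := fun (m : ℕ) (_ : g =O[𝓝 0] fun t : ℂ => ‖t‖ ^ m) => (m : ℕ∞)) m h

/-- The type does not depend on the choice of the local defining function. -/
lemma dAngeloType_le_of_definingFunction {n : ℕ} {Ω : Set (Fin n → ℂ)} {p : Fin n → ℂ}
    {r r' : (Fin n → ℂ) → ℝ} (hp : p ∈ frontier Ω)
    (h : IsLocalDefiningFunction Ω p r) (h' : IsLocalDefiningFunction Ω p r') :
    dAngeloType r p ≤ dAngeloType r' p := by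
  unfold dAngeloType
  refine iSup₂_mono fun γ hγ => ?_
  refine ENNReal.div_le_div_right ?_ _
  have hO : r' =O[𝓝 p] r := isBigO_definingFunction hp h h'
  have htend : Tendsto γ (𝓝 0) (𝓝 p) := by
    have := hγ.1.continuousAt.tendsto
    rwa [hγ.2.1] at this
  have h1 := vanishingOrder_mono (hO.comp_tendsto htend)
  exact_mod_cast h1

lemma dAngeloType_eq_of_definingFunction {n : ℕ} {Ω : Set (Fin n → ℂ)} {p : Fin n → ℂ}
    {r r' : (Fin n → ℂ) → ℝ} (hp : p ∈ frontier Ω)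
    (h : IsLocalDefiningFunction Ω p r) (h' : IsLocalDefiningFunction Ω p r') :
    dAngeloType r p = dAngeloType r' p :=
  le_antisymm (dAngeloType_le_of_definingFunction hp h h')
    (dAngeloType_le_of_definingFunction hp h' h)

lemma exists_small_pow {c C : ℝ} (hc : 0 < c) {R : ℝ} (hR : 0 < R) {k m : ℕ} (hkm : k < m) :
    ∃ ρ, 0 < ρ ∧ ρ < R ∧ C * ρ ^ m < c * ρ ^ k := by
  have h1 : Tendsto (fun ρ : ℝ => C * ρ ^ (m - k)) (𝓝[>] 0) (𝓝 0) := by
    have h2 : Continuous (fun ρ : ℝ => C * ρ ^ (m - k)) := by fun_prop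
    have h3 := h2.tendsto 0
    have h4 : C * (0:ℝ) ^ (m - k) = 0 := by
      rw [zero_pow (by omega), mul_zero]
    rw [h4] at h3
    exact h3.mono_left nhdsWithin_le_nhds
  have h5 := (h1.eventually_lt_const hc).and (Ioo_mem_nhdsGT hR)
  obtain ⟨ρ, hρ1, hρ2⟩ := h5.exists
  refine ⟨ρ, hρ2.1, hρ2.2, ?_⟩
  have h6 : ρ ^ m = ρ ^ (m - k) * ρ ^ k := by
    rw [← pow_add]; congr 1; omega
  rw [h6, ← mul_assoc]
  exact mul_lt_mul_of_pos_right hρ1 (pow_pos hρ2.1 k)

lemma vanishingOrder_le {E : Type*} [NormedAddCommGroup E] {g : ℂ → E} {k : ℕ} {c : ℝ}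
    (hc : 0 < c) (h : ∀ᶠ t : ℂ in 𝓝 0, c * ‖t‖ ^ k ≤ ‖g t‖) : vanishingOrder g ≤ k := by
  unfold vanishingOrder
  refine iSup₂_le fun m hm => ?_
  by_contra hcon
  have hkm : k < m := by
    have := not_le.mp hcon
    exact_mod_cast this
  obtain ⟨C, hC⟩ := hm.bound
  obtain ⟨δ, hδ, hball⟩ := Metric.eventually_nhds_iff_ball.mp (h.and hC)
  obtain ⟨ρ, hρ0, hρ1, hρ2⟩ := exists_small_pow (C := C) hc hδ hkm
  have hn : ‖(ρ : ℂ)‖ = ρ := by simp [abs_of_pos hρ0]
  have hb := hball (ρ : ℂ) (by rw [mem_ball_zero_iff, hn]; exact hρ1)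
  rw [norm_pow, norm_norm, hn] at hb
  linarith [hb.1, hb.2]

end TypeLemmas

section Types

/-- The type of the larger domain at `0` is at least `14`. -/
lemma le_dAngeloType_r₁ : 14 ≤ dAngeloType r₁ 0 := by
  unfold dAngeloType
  set γ : ℂ → Fin 3 → ℂ := fun t => t • (Pi.single 2 1 : Fin 3 → ℂ) with hγ
  have hnorm : ∀ t, ‖γ t‖ = ‖t‖ := by
    intro t
    rw [hγ]
    simp only [norm_smul, Pi.norm_single, norm_one, mul_one]
  have hr : ∀ t, r₁ (γ t) = ‖t‖ ^ 14 := by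
    intro t
    simp only [hγ, r₁]
    simp [Complex.normSq_eq_norm_sq]
    ring
  have hmem : AnalyticAt ℂ γ 0 ∧ γ 0 = 0 ∧ ¬ ∀ᶠ t in 𝓝 0, γ t = 0 := by
    refine ⟨?_, by simp [hγ], ?_⟩
    · rw [hγ]; fun_prop
    · intro hcon
      obtain ⟨δ, hδ, hball⟩ := Metric.eventually_nhds_iff_ball.mp hcon
      have h1 : ‖((δ / 2 : ℝ) : ℂ)‖ = δ / 2 := by
        rw [Complex.norm_real, Real.norm_eq_abs, abs_of_pos (by positivity)]
      have h2 := hball ((δ / 2 : ℝ) : ℂ) (by rw [mem_ball_zero_iff, h1]; linarith)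
      have h3 := hnorm ((δ / 2 : ℝ) : ℂ)
      rw [h2, norm_zero, h1] at h3
      linarith
  refine le_trans ?_ (le_iSup₂ (f := fun (γ : ℂ → Fin 3 → ℂ)
    (_ : AnalyticAt ℂ γ 0 ∧ γ 0 = 0 ∧ ¬ ∀ᶠ t in 𝓝 0, γ t = 0) =>
    ((vanishingOrder (fun t => r₁ (γ t)) : ℕ∞) : ℝ≥0∞) /
      ((vanishingOrder (fun t => γ t - 0) : ℕ∞) : ℝ≥0∞)) γ hmem)
  have h1 : (14 : ℕ∞) ≤ vanishingOrder (fun t => r₁ (γ t)) := by
    apply le_vanishingOrder (m := 14)
    simp only [hr]
    exact isBigO_refl _ _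
  have h2 : vanishingOrder (fun t => γ t - 0) ≤ 1 := by
    have := vanishingOrder_le (g := fun t => γ t - 0) (k := 1) (c := 1) one_pos
      (Eventually.of_forall fun t => by simp [hnorm])
    exact_mod_cast this
  have h1' : (14 : ℝ≥0∞) ≤ ((vanishingOrder (fun t => r₁ (γ t)) : ℕ∞) : ℝ≥0∞) := by
    exact_mod_cast h1
  have h2' : ((vanishingOrder (fun t => γ t - 0) : ℕ∞) : ℝ≥0∞) ≤ 1 := by
    exact_mod_cast h2
  calc (14 : ℝ≥0∞) = 14 / 1 := by simp
    _ ≤ _ := ENNReal.div_le_div h1' h2'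

lemma r₂_lower {z : Fin 3 → ℂ} (hz : ‖z‖ ≤ 1) : (z 0).re + 2 * ‖z‖ ^ 12 ≤ r₂ z := by
  have hn : ∀ i, Complex.normSq (z i) = ‖z i‖ ^ 2 := fun i => Complex.normSq_eq_norm_sq _
  unfold r₂
  rw [hn, hn, hn]
  have hi : ∀ i, ‖z i‖ ≤ 1 := fun i => (norm_le_pi_norm z i).trans hz
  have hle : ∃ i, ‖z‖ ≤ ‖z i‖ := by
    obtain ⟨i, hi⟩ := Finite.exists_max (fun i => ‖z i‖)
    exact ⟨i, (pi_norm_le_iff_of_nonneg (norm_nonneg _)).mpr hi⟩
  obtain ⟨i, hi'⟩ := hle
  have h0 := norm_nonneg (z 0)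
  have h1 := norm_nonneg (z 1)
  have h2 := norm_nonneg (z 2)
  have p0 : 0 ≤ (‖z 0‖ ^ 2) := by positivity
  have p1 : 0 ≤ (‖z 1‖ ^ 2) ^ 2 := by positivity
  have p2 : 0 ≤ (‖z 2‖ ^ 2) ^ 6 := by positivity
  have hpow : ‖z‖ ^ 12 ≤ ‖z i‖ ^ 12 := pow_le_pow_left₀ (norm_nonneg _) hi' 12
  have q0 : ‖z 0‖ ^ 12 ≤ ‖z 0‖ ^ 2 := pow_le_pow_of_le_one h0 (hi 0) (by norm_num)
  have q1 : ‖z 1‖ ^ 12 ≤ (‖z 1‖ ^ 2) ^ 2 := by
    rw [← pow_mul]; exact pow_le_pow_of_le_one h1 (hi 1) (by norm_num)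
  have q2 : ‖z 2‖ ^ 12 ≤ (‖z 2‖ ^ 2) ^ 6 := by
    rw [← pow_mul]
  fin_cases i
  · simp only [Fin.zero_eta] at hpow; linarith
  · simp only [Fin.mk_one] at hpow; linarith
  · have : ‖z‖ ^ 12 ≤ ‖z 2‖ ^ 12 := hpow
    linarith

/-- The type of the smaller domain at `0` is at most `12`. -/
lemma dAngeloType_r₂_le : dAngeloType r₂ 0 ≤ 12 := by
  unfold dAngeloType
  refine iSup₂_le fun γ hγ => ?_
  obtain ⟨hγa, hγ0, hγn⟩ := hγ
  -- factorisation of γ
  obtain ⟨k, g, hg, hg0, hfac⟩ := hγa.exists_eventuallyEq_pow_smul_nonzero_iff.mpr hγn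
  simp only [sub_zero] at hfac
  have hgn : 0 < ‖g 0‖ := norm_pos_iff.mpr hg0
  have hgc : ContinuousAt g 0 := hg.continuousAt
  have hlow : ∀ᶠ t in 𝓝 (0:ℂ), ‖g 0‖ / 2 * ‖t‖ ^ k ≤ ‖γ t‖ := by
    have h1 : ∀ᶠ t in 𝓝 (0:ℂ), ‖g 0‖ / 2 < ‖g t‖ :=
      continuousAt_const.eventually_lt hgc.norm (by linarith)
    filter_upwards [h1, hfac] with t h1 h2
    rw [h2, norm_smul, norm_pow, mul_comm]
    exact mul_le_mul_of_nonneg_left h1.le (by positivity)
  have hO : (fun t => γ t - 0) =O[𝓝 0] fun t : ℂ => ‖t‖ ^ k := by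
    have h1 : ∀ᶠ t in 𝓝 (0:ℂ), ‖g t‖ < ‖g 0‖ + 1 :=
      hgc.norm.eventually_lt continuousAt_const (by linarith)
    refine IsBigO.of_bound (‖g 0‖ + 1) ?_
    filter_upwards [h1, hfac] with t h1 h2
    rw [sub_zero, h2, norm_smul, norm_pow, norm_pow, norm_norm, mul_comm]
    exact mul_le_mul_of_nonneg_right h1.le (by positivity)
  have hordγ : (k : ℕ∞) ≤ vanishingOrder (fun t => γ t - 0) := le_vanishingOrder hO
  have hordr : vanishingOrder (fun t => r₂ (γ t)) ≤ ((12 * k : ℕ) : ℕ∞) := by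
    unfold vanishingOrder
    refine iSup₂_le fun m hm => ?_
    by_contra hcon
    have hkm : 12 * k < m := by
      have := not_le.mp hcon
      exact_mod_cast this
    obtain ⟨C, hC⟩ := hm.bound
    have hsmall : ∀ᶠ t in 𝓝 (0:ℂ), ‖γ t‖ < 1 := by
      apply hγa.continuousAt.norm.eventually_lt continuousAt_const
      rw [hγ0, norm_zero]; exact one_pos
    obtain ⟨δ, hδ, hball⟩ := Metric.eventually_nhds_iff_ball.mp
      (((hlow.and hC).and hsmall).and hγa.eventually_analyticAt)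
    have hc : 0 < 2 * (‖g 0‖ / 2) ^ 12 := by positivity
    obtain ⟨ρ, hρ0, hρ1, hρ2⟩ := exists_small_pow (C := C) hc hδ hkm
    have hsub : Metric.closedBall (0:ℂ) ρ ⊆ Metric.ball 0 δ := Metric.closedBall_subset_ball hρ1
    have hdiff : DiffContOnCl ℂ (fun t => γ t 0) (Metric.ball 0 |ρ|) := by
      rw [abs_of_pos hρ0]
      apply DifferentiableOn.diffContOnCl
      rw [closure_ball _ hρ0.ne']
      intro t ht
      have h1 : DifferentiableAt ℂ γ t := (hball t (hsub ht)).2.differentiableAt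
      exact (differentiableAt_pi.mp h1 0).differentiableWithinAt
    have hmean : Real.circleAverage (fun t => (γ t 0).re) 0 ρ = 0 := by
      have h1 := DiffContOnCl.circleAverage hdiff
      have hcont : ContinuousOn (fun t => γ t 0) (Metric.sphere 0 |ρ|) := by
        rw [abs_of_pos hρ0]
        intro t ht
        have h1 : ContinuousAt γ t :=
          (hball t (hsub (Metric.sphere_subset_closedBall ht))).2.continuousAt
        exact ((continuous_apply 0).continuousAt.comp h1).continuousWithinAt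
      have h2 := Complex.reCLM.circleAverage_comp_comm (c := 0) (R := ρ)
        (f := fun t => γ t 0) hcont.circleIntegrable'
      have h3 : (Complex.reCLM ∘ fun t => γ t 0) = fun t => (γ t 0).re := rfl
      rw [h3, h1] at h2
      rw [h2]
      simp [hγ0]
    have hle : Real.circleAverage (fun t => (γ t 0).re) 0 ρ ≤
        C * ρ ^ m - 2 * (‖g 0‖ / 2) ^ 12 * ρ ^ (12 * k) := by
      apply Real.circleAverage_mono_on_of_le_circle
      · apply ContinuousOn.circleIntegrable'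
        rw [abs_of_pos hρ0]
        intro t ht
        have h1 : ContinuousAt γ t :=
          (hball t (hsub (Metric.sphere_subset_closedBall ht))).2.continuousAt
        exact (Complex.continuous_re.continuousAt.comp
          ((continuous_apply 0).continuousAt.comp h1)).continuousWithinAt
      · intro t ht
        rw [abs_of_pos hρ0] at ht
        have htn : ‖t‖ = ρ := by simpa using ht
        obtain ⟨⟨⟨h1, h2⟩, h3⟩, -⟩ := hball t (hsub (Metric.sphere_subset_closedBall ht))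
        have h4 := r₂_lower h3.le
        have h5 : r₂ (γ t) ≤ C * ρ ^ m := by
          refine (le_abs_self _).trans ?_
          simpa [htn, abs_of_pos hρ0] using h2
        have h6 : (‖g 0‖ / 2) ^ 12 * ρ ^ (12 * k) ≤ ‖γ t‖ ^ 12 := by
          rw [htn] at h1
          have := pow_le_pow_left₀ (by positivity) h1 12
          calc (‖g 0‖ / 2) ^ 12 * ρ ^ (12 * k) = (‖g 0‖ / 2 * ρ ^ k) ^ 12 := by
                rw [mul_pow, ← pow_mul, mul_comm k 12]
            _ ≤ _ := this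
        linarith
    rw [hmean] at hle
    linarith
  refine ENNReal.div_le_of_le_mul ?_
  have h1 : ((vanishingOrder (fun t => r₂ (γ t)) : ℕ∞) : ℝ≥0∞) ≤ ((12 * k : ℕ) : ℝ≥0∞) := by
    exact_mod_cast hordr
  have h2 : (k : ℝ≥0∞) ≤ ((vanishingOrder (fun t => γ t - 0) : ℕ∞) : ℝ≥0∞) := by
    exact_mod_cast hordγ
  refine h1.trans ?_
  push_cast
  gcongr

end Types

section Estimates

/-- radial weights -/
noncomputable def G₀ (w : ℂ) : ℝ := (1 + ‖w‖) ^ (-(3:ℝ))
noncomputable def G₁ (w : ℂ) : ℝ := (‖w‖ * (1 + ‖w‖) ^ 2)⁻¹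

lemma G₀_eq (w : ℂ) : G₀ w = ((1 + ‖w‖) ^ 3)⁻¹ := by
  unfold G₀
  rw [Real.rpow_neg (by positivity)]
  norm_cast

lemma integrable_G₀ : Integrable G₀ := by
  unfold G₀
  apply integrable_one_add_norm
  rw [Complex.finrank_real_complex]
  norm_num

lemma integrable_G₁ : Integrable G₁ := by
  have h : G₁ = fun w : ℂ => (fun y : ℝ => (y * (1 + y) ^ 2)⁻¹) ‖w‖ := rfl
  rw [h, integrable_fun_norm_addHaar volume (f := fun y : ℝ => (y * (1 + y) ^ 2)⁻¹)]
  rw [Complex.finrank_real_complex]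
  have h1 : IntegrableOn (fun x : ℝ => (1 + x ^ 2)⁻¹) (Ioi 0) :=
    integrable_inv_one_add_sq.integrableOn
  refine Integrable.mono' h1 ?_ ?_
  · apply Measurable.aestronglyMeasurable
    simp only [smul_eq_mul]
    fun_prop
  · rw [ae_restrict_iff' measurableSet_Ioi]
    refine Eventually.of_forall fun x hx => ?_
    have hx0 : (0:ℝ) < x := hx
    rw [Real.norm_eq_abs, smul_eq_mul, abs_of_nonneg (by positivity)]
    have : x ^ (2 - 1) * (x * (1 + x) ^ 2)⁻¹ = ((1 + x) ^ 2)⁻¹ := by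
      rw [show (2 - 1 : ℕ) = 1 from rfl, pow_one]
      field_simp
    rw [this]
    apply inv_anti₀ (by positivity)
    nlinarith

/-- scaled weights -/
noncomputable def W (s : ℝ) : Fin 3 → ℂ → ℝ :=
  ![fun w => G₀ ((s ^ 12)⁻¹ • w), fun w => G₁ ((s ^ 3)⁻¹ • w), fun w => G₀ (s⁻¹ • w)]

lemma integral_W_prod {s : ℝ} (hs : 0 < s) :
    ∫ z : Fin 3 → ℂ, ∏ i, W s i (z i) = s ^ 32 * ((∫ w, G₀ w) * (∫ w, G₁ w) * (∫ w, G₀ w)) := by
  rw [integral_fintype_prod_volume_eq_prod, Fin.prod_univ_three]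
  have e0 : ∫ w, W s 0 w = s ^ 24 * ∫ w, G₀ w := by
    show ∫ w : ℂ, G₀ ((s ^ 12)⁻¹ • w) = _
    rw [Measure.integral_comp_smul, Complex.finrank_real_complex, smul_eq_mul,
      abs_of_nonneg (by positivity)]
    congr 1
    field_simp
  have e1 : ∫ w, W s 1 w = s ^ 6 * ∫ w, G₁ w := by
    show ∫ w : ℂ, G₁ ((s ^ 3)⁻¹ • w) = _
    rw [Measure.integral_comp_smul, Complex.finrank_real_complex, smul_eq_mul,
      abs_of_nonneg (by positivity)]
    congr 1
    field_simp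
  have e2 : ∫ w, W s 2 w = s ^ 2 * ∫ w, G₀ w := by
    show ∫ w : ℂ, G₀ (s⁻¹ • w) = _
    rw [Measure.integral_comp_smul, Complex.finrank_real_complex, smul_eq_mul,
      abs_of_nonneg (by positivity)]
    congr 1
    field_simp
  rw [e0, e1, e2]
  ring

lemma integrable_W_prod {s : ℝ} (hs : 0 < s) :
    Integrable (fun z : Fin 3 → ℂ => ∏ i, W s i (z i)) := by
  apply Integrable.fintype_prod
  intro i
  fin_cases i
  · exact integrable_G₀.comp_smul (by positivity)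
  · exact integrable_G₁.comp_smul (by positivity)
  · exact integrable_G₀.comp_smul (by positivity)

/-- test functions -/
noncomputable def F (s : ℝ) (z : Fin 3 → ℂ) : ℂ := ((s : ℂ)) ^ 20 / (z 0 - (s : ℂ) ^ 12) ^ 3

lemma re_neg_of_mem {z : Fin 3 → ℂ} (hz : z ∈ Ω₁) : (z 0).re < 0 := by
  have hz' : r₁ z < 0 := hz
  unfold r₁ at hz'
  have h0 := Complex.normSq_nonneg (z 0)
  have h1 := Complex.normSq_nonneg (z 1)
  have h2 := Complex.normSq_nonneg (z 2)
  have : 0 ≤ Complex.normSq (z 1) ^ 2 := by positivity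
  have : 0 ≤ Complex.normSq (z 1) * Complex.normSq (z 2) ^ 3 := by positivity
  have : 0 ≤ Complex.normSq (z 2) ^ 7 := by positivity
  linarith

lemma re_le_norm_sub {s : ℝ} (w : ℂ) : s - w.re ≤ ‖w - (s : ℂ)‖ := by
  have h1 : s - w.re ≤ |(w - (s:ℂ)).re| := by
    rw [Complex.sub_re, Complex.ofReal_re, abs_sub_comm]
    exact le_abs_self _
  exact h1.trans (Complex.abs_re_le_norm _)

lemma sub_ne_zero_of_mem {s : ℝ} (hs : 0 < s) {z : Fin 3 → ℂ} (hz : z ∈ Ω₁) :
    z 0 - (s : ℂ) ^ 12 ≠ 0 := by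
  intro h
  have h1 : z 0 = ((s ^ 12 : ℝ) : ℂ) := by
    push_cast
    exact sub_eq_zero.mp h
  have h2 := re_neg_of_mem hz
  rw [h1, Complex.ofReal_re] at h2
  have : 0 < s ^ 12 := by positivity
  linarith

lemma differentiableOn_F {s : ℝ} (hs : 0 < s) : DifferentiableOn ℂ (F s) Ω₁ := by
  intro z hz
  have h := sub_ne_zero_of_mem hs hz
  unfold F
  apply DifferentiableAt.differentiableWithinAt
  have h1 : DifferentiableAt ℂ (fun z : Fin 3 → ℂ => z 0) z := by fun_prop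
  have h2 : DifferentiableAt ℂ (fun z : Fin 3 → ℂ => (z 0 - (s : ℂ) ^ 12) ^ 3) z :=
    (h1.sub_const _).fun_pow 3
  have h3 : (z 0 - (s : ℂ) ^ 12) ^ 3 ≠ 0 := pow_ne_zero 3 h
  fun_prop (disch := exact h3)

lemma norm_F_sq (s : ℝ) (z : Fin 3 → ℂ) :
    ‖F s z‖ ^ 2 = s ^ 40 / ‖z 0 - ((s ^ 12 : ℝ) : ℂ)‖ ^ 6 := by
  unfold F
  rw [norm_div, norm_pow, norm_pow, div_pow, ← pow_mul, ← pow_mul, Complex.norm_real,
    Real.norm_eq_abs]
  push_cast
  rw [Even.pow_abs (by decide)]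

lemma aux_inv (a b c d : ℝ) :
    256 * a * (b⁻¹ * c⁻¹ * d⁻¹) = a * (256 * (b * c * d)⁻¹) := by
  rw [mul_inv, mul_inv]; ring

/-- The key pointwise bound. -/
lemma pointwise_bound {s : ℝ} (hs : 0 < s) {z : Fin 3 → ℂ} (hz : z ∈ Ω₁) (hz1 : z 1 ≠ 0) :
    ‖F s z‖ ^ 2 ≤ 256 * (s ^ 32)⁻¹ * ∏ i, W s i (z i) := by
  have hz' : r₁ z < 0 := hz
  unfold r₁ at hz'
  simp only [Complex.normSq_eq_norm_sq] at hz'
  rw [norm_F_sq, Fin.prod_univ_three]
  show _ ≤ 256 * (s ^ 32)⁻¹ * (G₀ ((s ^ 12)⁻¹ • z 0) * G₁ ((s ^ 3)⁻¹ • z 1) * G₀ (s⁻¹ • z 2))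
  rw [G₀_eq, G₀_eq]
  unfold G₁
  rw [norm_smul, norm_smul, norm_smul]
  simp only [norm_inv, norm_pow, Real.norm_eq_abs, abs_of_pos hs]
  -- scaled quantities
  set A := ‖z 0 - ((s ^ 12 : ℝ) : ℂ)‖ with hA
  set u := (s ^ 3)⁻¹ * ‖z 1‖ with hu
  set v := s⁻¹ * ‖z 2‖ with hv
  set w := (s ^ 12)⁻¹ * ‖z 0‖ with hw
  have hre := re_neg_of_mem hz
  have hu0 : 0 < u := by
    have := norm_pos_iff.mpr hz1
    positivity
  have hv0 : 0 ≤ v := by positivity
  have hw0 : 0 ≤ w := by positivity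
  have hn1 : ‖z 1‖ = s ^ 3 * u := by rw [hu]; field_simp
  have hn2 : ‖z 2‖ = s * v := by rw [hv]; field_simp
  have hn0 : ‖z 0‖ = s ^ 12 * w := by rw [hw]; field_simp
  set B := (s ^ 12)⁻¹ * A with hB
  have hAB : A = s ^ 12 * B := by rw [hB]; field_simp
  have hs12 : 0 < s ^ 12 := by positivity
  -- lower bounds for B
  have hA1 : s ^ 12 - (z 0).re ≤ A := re_le_norm_sub _
  have hB1 : 1 + u ^ 4 + u ^ 2 * v ^ 6 ≤ B := by
    have h1 : s ^ 12 * (1 + u ^ 4 + u ^ 2 * v ^ 6) ≤ s ^ 12 * B := by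
      rw [← hAB]
      have h2 : s ^ 12 * (u ^ 4 + u ^ 2 * v ^ 6) = (‖z 1‖ ^ 2) ^ 2 + ‖z 1‖ ^ 2 * (‖z 2‖ ^ 2) ^ 3 := by
        rw [hn1, hn2]; ring
      have h3 : 0 ≤ ‖z 0‖ ^ 2 := by positivity
      have h4 : 0 ≤ (‖z 2‖ ^ 2) ^ 7 := by positivity
      nlinarith
    exact le_of_mul_le_mul_left h1 hs12
  have hA2 : ‖z 0‖ ≤ A := by
    rw [hA]
    apply (pow_le_pow_iff_left₀ (norm_nonneg _) (norm_nonneg _) two_ne_zero).mp
    rw [← Complex.normSq_eq_norm_sq, ← Complex.normSq_eq_norm_sq, Complex.normSq_apply,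
      Complex.normSq_apply]
    simp only [Complex.sub_re, Complex.sub_im, Complex.ofReal_re, Complex.ofReal_im]
    nlinarith
  have hB2 : w ≤ B := by
    have h1 : s ^ 12 * w ≤ s ^ 12 * B := by rw [← hAB, ← hn0]; exact hA2
    exact le_of_mul_le_mul_left h1 hs12
  have hBone : 1 ≤ B := by
    have : 0 ≤ u ^ 4 + u ^ 2 * v ^ 6 := by positivity
    linarith
  have hB3 : (1 + w) ^ 3 ≤ 8 * B ^ 3 := by
    have : 1 + w ≤ 2 * B := by linarith
    calc (1 + w) ^ 3 ≤ (2 * B) ^ 3 := pow_le_pow_left₀ (by positivity) this 3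
      _ = 8 * B ^ 3 := by ring
  have hB4 : (1 + u) ^ 2 ≤ 4 * B := by
    have : 0 ≤ u ^ 2 * v ^ 6 := by positivity
    nlinarith [sq_nonneg (u ^ 2 - 1), sq_nonneg (u - 1)]
  have hB5 : u * (1 + v) ^ 3 ≤ 8 * B := by
    rcases le_total v 1 with hv1 | hv1
    · have h1 : (1 + v) ^ 3 ≤ 8 := by
        calc (1 + v) ^ 3 ≤ 2 ^ 3 := pow_le_pow_left₀ (by positivity) (by linarith) 3
          _ = 8 := by norm_num
      have h2 : u ≤ B := by
        have : 0 ≤ u ^ 2 * v ^ 6 := by positivity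
        nlinarith [sq_nonneg (u ^ 2 - 1), sq_nonneg (u - 1)]
      nlinarith
    · have h1 : (1 + v) ^ 3 ≤ 8 * v ^ 3 := by
        calc (1 + v) ^ 3 ≤ (2 * v) ^ 3 := pow_le_pow_left₀ (by positivity) (by linarith) 3
          _ = 8 * v ^ 3 := by ring
      have h2 : u * v ^ 3 ≤ B := by
        have : 0 ≤ u ^ 4 := by positivity
        nlinarith [sq_nonneg (u * v ^ 3 - 1)]
      nlinarith
  -- combine
  have hB0 : 0 < B := by linarith
  have hprod : (1 + w) ^ 3 * (u * (1 + u) ^ 2) * (1 + v) ^ 3 ≤ 256 * B ^ 6 := by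
    have h1 : (1 + w) ^ 3 * (u * (1 + u) ^ 2) * (1 + v) ^ 3 =
        (1 + w) ^ 3 * (1 + u) ^ 2 * (u * (1 + v) ^ 3) := by ring
    rw [h1]
    calc (1 + w) ^ 3 * (1 + u) ^ 2 * (u * (1 + v) ^ 3) ≤ (8 * B ^ 3) * (4 * B) * (8 * B) := by
          gcongr
      _ = 256 * B ^ 5 := by ring
      _ ≤ 256 * B ^ 6 := by
          have : B ^ 5 ≤ B ^ 6 := pow_le_pow_right₀ hBone (by norm_num)
          linarith
  rw [hAB]
  have e1 : s ^ 40 / (s ^ 12 * B) ^ 6 = (s ^ 32)⁻¹ * (B ^ 6)⁻¹ := by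
    field_simp
  have e2 : 256 * (s ^ 32)⁻¹ * (((1 + w) ^ 3)⁻¹ * (u * (1 + u) ^ 2)⁻¹ * ((1 + v) ^ 3)⁻¹) =
      (s ^ 32)⁻¹ * (256 * ((1 + w) ^ 3 * (u * (1 + u) ^ 2) * (1 + v) ^ 3)⁻¹) := by
    exact aux_inv _ _ _ _
  rw [e1, e2]
  apply mul_le_mul_of_nonneg_left _ (by positivity)
  rw [← div_eq_mul_inv, le_div_iff₀ (by positivity), inv_mul_le_iff₀ (by positivity)]
  linarith

end Estimates

section MainProof

lemma measurable_F (s : ℝ) : Measurable (F s) := by
  unfold F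
  fun_prop

/-- the constant bounding the squared norms -/
noncomputable def M2 : ℝ := 256 * ((∫ w, G₀ w) * (∫ w, G₁ w) * (∫ w, G₀ w))

lemma ae_ne : ∀ᵐ z : Fin 3 → ℂ, z 1 ≠ 0 := by
  have h : (volume : Measure (Fin 3 → ℂ)) {z | z 1 = 0} = 0 := Measure.pi_hyperplane _ 1 0
  rw [ae_iff]
  simpa using h

lemma lintegral_F_le {s : ℝ} (hs : 0 < s) :
    ∫⁻ z in Ω₁, ‖F s z‖ₑ ^ 2 ≤ ENNReal.ofReal M2 := by
  have h1 : ∫⁻ z in Ω₁, ‖F s z‖ₑ ^ 2 ≤
      ∫⁻ z in Ω₁, ENNReal.ofReal (256 * (s ^ 32)⁻¹ * ∏ i, W s i (z i)) := by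
    apply lintegral_mono_ae
    rw [ae_restrict_iff' isOpen_Ω₁.measurableSet]
    filter_upwards [ae_ne] with z hz1 hz
    rw [← ofReal_norm, ← ENNReal.ofReal_pow (norm_nonneg _)]
    exact ENNReal.ofReal_le_ofReal (pointwise_bound hs hz hz1)
  refine h1.trans ((setLIntegral_le_lintegral _ _).trans ?_)
  have hnn : ∀ z : Fin 3 → ℂ, 0 ≤ 256 * (s ^ 32)⁻¹ * ∏ i, W s i (z i) := by
    intro z
    have : 0 ≤ ∏ i, W s i (z i) := by
      rw [Fin.prod_univ_three]
      show 0 ≤ G₀ ((s ^ 12)⁻¹ • z 0) * G₁ ((s ^ 3)⁻¹ • z 1) * G₀ (s⁻¹ • z 2)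
      rw [G₀_eq, G₀_eq]
      unfold G₁
      positivity
    positivity
  rw [← ofReal_integral_eq_lintegral_ofReal ((integrable_W_prod hs).const_mul _)
    (Eventually.of_forall hnn), integral_const_mul, integral_W_prod hs]
  apply ENNReal.ofReal_le_ofReal
  apply le_of_eq
  unfold M2
  field_simp

/-- polydiscs contained in the smaller domain -/
def P (s : ℝ) : Set (Fin 3 → ℂ) :=
  Set.pi univ ![Metric.ball (-((s ^ 12 : ℝ) : ℂ)) (s ^ 12 / 4), Metric.ball 0 (s ^ 3 / 4),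
    Metric.ball 0 (s / 4)]

lemma mem_P {s : ℝ} {z : Fin 3 → ℂ} (hz : z ∈ P s) :
    ‖z 0 + ((s ^ 12 : ℝ) : ℂ)‖ < s ^ 12 / 4 ∧ ‖z 1‖ < s ^ 3 / 4 ∧ ‖z 2‖ < s / 4 := by
  have h0 := hz 0 (mem_univ _)
  have h1 := hz 1 (mem_univ _)
  have h2 := hz 2 (mem_univ _)
  refine ⟨?_, ?_, ?_⟩
  · have : z 0 ∈ Metric.ball (-((s ^ 12 : ℝ) : ℂ)) (s ^ 12 / 4) := h0
    rw [mem_ball_iff_norm, sub_neg_eq_add] at this
    exact this
  · have : z 1 ∈ Metric.ball (0 : ℂ) (s ^ 3 / 4) := h1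
    simpa using this
  · have : z 2 ∈ Metric.ball (0 : ℂ) (s / 4) := h2
    simpa using this

lemma P_subset {s : ℝ} (hs : 0 < s) (hs2 : s ≤ 1/2) : P s ⊆ Ω₂ := by
  intro z hz
  obtain ⟨h0, h1, h2⟩ := mem_P hz
  show r₂ z < 0
  unfold r₂
  simp only [Complex.normSq_eq_norm_sq]
  have hδ : 0 < s ^ 12 := by positivity
  have hδ1 : s ^ 12 ≤ 1 / 4096 := by
    calc s ^ 12 ≤ (1/2) ^ 12 := pow_le_pow_left₀ hs.le hs2 12
      _ = 1 / 4096 := by norm_num
  have hre : (z 0).re ≤ -(3/4) * s ^ 12 := by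
    have h3 := (Complex.re_le_norm (z 0 + ((s ^ 12 : ℝ) : ℂ))).trans h0.le
    rw [Complex.add_re, Complex.ofReal_re] at h3
    linarith
  have hn0 : ‖z 0‖ ≤ 5/4 * s ^ 12 := by
    have h3 : z 0 = (z 0 + ((s ^ 12 : ℝ) : ℂ)) - ((s ^ 12 : ℝ) : ℂ) := by ring
    rw [h3]
    refine (norm_sub_le _ _).trans ?_
    rw [Complex.norm_real, Real.norm_eq_abs, abs_of_pos hδ]
    linarith
  have q0 : ‖z 0‖ ^ 2 ≤ (5/4 * s ^ 12) ^ 2 := pow_le_pow_left₀ (norm_nonneg _) hn0 2
  have q1 : (‖z 1‖ ^ 2) ^ 2 ≤ s ^ 12 / 256 := by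
    rw [← pow_mul]
    calc ‖z 1‖ ^ (2 * 2) ≤ (s ^ 3 / 4) ^ (2 * 2) := pow_le_pow_left₀ (norm_nonneg _) h1.le _
      _ = s ^ 12 / 256 := by ring
  have q2 : (‖z 2‖ ^ 2) ^ 6 ≤ s ^ 12 / 16777216 := by
    rw [← pow_mul]
    calc ‖z 2‖ ^ (2 * 6) ≤ (s / 4) ^ (2 * 6) := pow_le_pow_left₀ (norm_nonneg _) h2.le _
      _ = s ^ 12 / 16777216 := by ring
  have q3 : (5/4 * s ^ 12) ^ 2 ≤ 25/16 * (1/4096) * s ^ 12 := by nlinarith
  nlinarith

lemma volume_P {s : ℝ} (hs : 0 < s) :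
    (volume : Measure (Fin 3 → ℂ)) (P s) = ENNReal.ofReal (s ^ 32 / 4096) * (NNReal.pi : ℝ≥0∞) ^ 3 := by
  unfold P
  rw [volume_pi_pi, Fin.prod_univ_three]
  show volume (Metric.ball (-((s ^ 12 : ℝ) : ℂ)) (s ^ 12 / 4)) *
    volume (Metric.ball (0 : ℂ) (s ^ 3 / 4)) * volume (Metric.ball (0 : ℂ) (s / 4)) = _
  rw [Complex.volume_ball, Complex.volume_ball, Complex.volume_ball,
    ← ENNReal.ofReal_pow (by positivity), ← ENNReal.ofReal_pow (by positivity),
    ← ENNReal.ofReal_pow (by positivity)]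
  have h : ENNReal.ofReal (s ^ 32 / 4096) = ENNReal.ofReal ((s ^ 12 / 4) ^ 2) *
      ENNReal.ofReal ((s ^ 3 / 4) ^ 2) * ENNReal.ofReal ((s / 4) ^ 2) := by
    rw [← ENNReal.ofReal_mul (by positivity), ← ENNReal.ofReal_mul (by positivity)]
    congr 1
    ring
  rw [h]
  ring

lemma measurableSet_P (s : ℝ) : MeasurableSet (P s) := by
  unfold P
  refine MeasurableSet.univ_pi fun i => ?_
  fin_cases i
  · exact Metric.isOpen_ball.measurableSet
  · exact Metric.isOpen_ball.measurableSet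
  · exact Metric.isOpen_ball.measurableSet

/-- lower bound constant -/
noncomputable def m2 : ℝ≥0∞ := ENNReal.ofReal ((4/9) ^ 6 / 4096) * (NNReal.pi : ℝ≥0∞) ^ 3

lemma m2_pos : 0 < m2 := by
  unfold m2
  apply ENNReal.mul_pos
  · simp
  · apply pow_ne_zero
    exact_mod_cast NNReal.pi_ne_zero

lemma le_lintegral_F {s : ℝ} (hs : 0 < s) (hs2 : s ≤ 1/2) :
    m2 ≤ ∫⁻ z in Ω₂, ‖F s z‖ₑ ^ 2 := by
  have h1 : ∫⁻ z in P s, ENNReal.ofReal ((4/9) ^ 6 * (s ^ 32)⁻¹) ≤ ∫⁻ z in P s, ‖F s z‖ₑ ^ 2 := by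
    apply setLIntegral_mono' (measurableSet_P s)
    intro z hz
    rw [← ofReal_norm, ← ENNReal.ofReal_pow (norm_nonneg _)]
    apply ENNReal.ofReal_le_ofReal
    rw [norm_F_sq]
    obtain ⟨h0, -, -⟩ := mem_P hz
    have hδ : 0 < s ^ 12 := by positivity
    have h3 : ‖z 0 - ((s ^ 12 : ℝ) : ℂ)‖ ≤ 9/4 * s ^ 12 := by
      have h4 : z 0 - ((s ^ 12 : ℝ) : ℂ) = (z 0 + ((s ^ 12 : ℝ) : ℂ)) - ((2 * s ^ 12 : ℝ) : ℂ) := by
        push_cast; ring
      rw [h4]
      refine (norm_sub_le _ _).trans ?_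
      rw [Complex.norm_real, Real.norm_eq_abs, abs_of_pos (by positivity)]
      linarith
    have h5 : 0 < ‖z 0 - ((s ^ 12 : ℝ) : ℂ)‖ := by
      have := sub_ne_zero_of_mem hs (Ω₂_subset_Ω₁ (P_subset hs hs2 hz))
      rw [norm_pos_iff]
      push_cast
      exact this
    have h6 : ‖z 0 - ((s ^ 12 : ℝ) : ℂ)‖ ^ 6 ≤ (9/4 * s ^ 12) ^ 6 :=
      pow_le_pow_left₀ h5.le h3 6
    have h7 : (4/9) ^ 6 * (s ^ 32)⁻¹ = s ^ 40 / (9/4 * s ^ 12) ^ 6 := by
      field_simp
    rw [h7]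
    exact div_le_div_of_nonneg_left (by positivity) (by positivity) h6
  have h2 : ∫⁻ z in P s, ENNReal.ofReal ((4/9) ^ 6 * (s ^ 32)⁻¹) = m2 := by
    rw [setLIntegral_const, volume_P hs, ← mul_assoc, ← ENNReal.ofReal_mul (by positivity)]
    unfold m2
    congr 2
    field_simp
  rw [← h2]
  exact h1.trans (lintegral_mono_set (P_subset hs hs2))

lemma eLpNorm_sq {μ : Measure (Fin 3 → ℂ)} (f : (Fin 3 → ℂ) → ℂ) :
    eLpNorm f 2 μ ^ 2 = ∫⁻ z, ‖f z‖ₑ ^ 2 ∂μ := by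
  have h := eLpNorm_nnreal_pow_eq_lintegral (μ := μ) (f := f) (p := 2) (by norm_num)
  simp only [NNReal.coe_ofNat, ENNReal.rpow_ofNat] at h
  exact_mod_cast h

lemma memLp_F {s : ℝ} (hs : 0 < s) :
    MemLp (F s) 2 ((volume : Measure (Fin 3 → ℂ)).restrict Ω₁) := by
  refine ⟨(measurable_F s).aestronglyMeasurable, ?_⟩
  have h := lintegral_F_le hs
  rw [← eLpNorm_sq] at h
  have h2 : eLpNorm (F s) 2 (volume.restrict Ω₁) ^ 2 < ⊤ := h.trans_lt ENNReal.ofReal_lt_top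
  by_contra hcon
  rw [not_lt, top_le_iff] at hcon
  rw [hcon] at h2
  simp at h2

lemma memBergman_F {s : ℝ} (hs : 0 < s) : MemBergman Ω₁ (F s) :=
  ⟨differentiableOn_F hs, memLp_F hs⟩

lemma eLpNorm_F_le {s : ℝ} (hs : 0 < s) :
    eLpNorm (F s) 2 ((volume : Measure (Fin 3 → ℂ)).restrict Ω₁) ≤
      ((max M2 1).toNNReal : ℝ≥0∞) := by
  have h1 := lintegral_F_le hs
  rw [← eLpNorm_sq] at h1
  have h2 : ENNReal.ofReal M2 ≤ ((max M2 1).toNNReal : ℝ≥0∞) ^ 2 := by
    have h3 : ((max M2 1).toNNReal : ℝ≥0∞) = ENNReal.ofReal (max M2 1) := rfl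
    rw [h3, ← ENNReal.ofReal_pow (by positivity)]
    apply ENNReal.ofReal_le_ofReal
    nlinarith [le_max_left M2 1, le_max_right M2 1]
  exact (ENNReal.pow_le_pow_left_iff two_ne_zero).mp (h1.trans h2)

lemma tendsto_F {ι : Type*} {l : Filter ι} {σ : ι → ℝ} (hσ0 : ∀ j, 0 < σ j)
    (hσ : Tendsto σ l (𝓝 0)) {z : Fin 3 → ℂ} (hz : z ∈ Ω₁) :
    Tendsto (fun j => F (σ j) z) l (𝓝 0) := by
  have hre := re_neg_of_mem hz
  have h1 : ∀ j, ‖F (σ j) z‖ ≤ (σ j) ^ 20 / (-(z 0).re) ^ 3 := by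
    intro j
    have hpos := hσ0 j
    have h2 : -(z 0).re ≤ ‖z 0 - ((σ j ^ 12 : ℝ) : ℂ)‖ := by
      have h3 := re_le_norm_sub (s := σ j ^ 12) (z 0)
      have : 0 < σ j ^ 12 := by positivity
      linarith
    unfold F
    rw [norm_div, norm_pow, norm_pow, Complex.norm_real, Real.norm_eq_abs, abs_of_pos hpos]
    push_cast at h2
    have h4 : 0 < -(z 0).re := by linarith
    gcongr
  have h2 : Tendsto (fun j => (σ j) ^ 20 / (-(z 0).re) ^ 3) l (𝓝 0) := by
    have h3 := (hσ.pow 20).div_const ((-(z 0).re) ^ 3)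
    simpa using h3
  exact squeeze_zero_norm h1 h2

theorem not_compact : ¬ RestrictionIsCompact Ω₁ Ω₂ := by
  intro hcomp
  set σ : ℕ → ℝ := fun j => 1 / ((j : ℝ) + 2) with hσdef
  have hσ0 : ∀ j, 0 < σ j := fun j => by positivity
  have hσ2 : ∀ j, σ j ≤ 1/2 := by
    intro j
    have : (0:ℝ) ≤ j := Nat.cast_nonneg j
    apply one_div_le_one_div_of_le (by norm_num)
    linarith
  have hσlim : Tendsto σ atTop (𝓝 0) := by
    have h1 : Tendsto (fun j : ℕ => (j : ℝ) + 2) atTop atTop :=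
      tendsto_atTop_add_const_right _ _ tendsto_natCast_atTop_atTop
    refine h1.inv_tendsto_atTop.congr fun j => ?_
    simp [hσdef]
  obtain ⟨g, φ, hg, hφ, hlim⟩ := hcomp (fun j => F (σ j)) _ (fun j => memBergman_F (hσ0 j))
    (fun j => eLpNorm_F_le (hσ0 j))
  -- the limit is zero
  have hmeas := tendstoInMeasure_of_tendsto_eLpNorm (p := 2) (by norm_num)
    (fun j => (measurable_F (σ (φ j))).aestronglyMeasurable) hg.2.1 hlim
  obtain ⟨ns, hns, hae⟩ := hmeas.exists_seq_tendsto_ae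
  have hmem : ∀ᵐ z ∂((volume : Measure (Fin 3 → ℂ)).restrict Ω₂), z ∈ Ω₂ :=
    ae_restrict_mem isOpen_Ω₂.measurableSet
  have hg0 : g =ᵐ[volume.restrict Ω₂] 0 := by
    filter_upwards [hae, hmem] with z h1 h3
    have h5 : Tendsto (fun i => F (σ (φ (ns i))) z) atTop (𝓝 0) := by
      apply tendsto_F (fun i => hσ0 _) _ (Ω₂_subset_Ω₁ h3)
      exact hσlim.comp (hφ.tendsto_atTop.comp hns.tendsto_atTop)
    exact tendsto_nhds_unique h1 h5
  have heq : ∀ j, eLpNorm (F (σ (φ j)) - g) 2 (volume.restrict Ω₂) =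
      eLpNorm (F (σ (φ j))) 2 (volume.restrict Ω₂) := by
    intro j
    apply eLpNorm_congr_ae
    filter_upwards [hg0] with z hz
    simp [hz]
  have hlim2 : Tendsto (fun j => eLpNorm (F (σ (φ j))) 2 (volume.restrict Ω₂) ^ 2) atTop
      (𝓝 0) := by
    have h1 : Tendsto (fun j => eLpNorm (F (σ (φ j))) 2 (volume.restrict Ω₂)) atTop (𝓝 0) :=
      hlim.congr heq
    have h2 := ENNReal.Tendsto.pow (n := 2) h1
    simpa using h2
  have hge : m2 ≤ 0 := by
    refine ge_of_tendsto' hlim2 fun j => ?_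
    rw [eLpNorm_sq]
    exact le_lintegral_F (hσ0 _) (hσ2 _)
  exact absurd m2_pos (not_lt.mpr hge)

end MainProof

/-- There are smooth bounded pseudoconvex domains `Ω₂ ⊆ Ω₁` in `ℂ³` whose boundaries meet in
exactly one point `p`, such that the restriction map `A²(Ω₁) → A²(Ω₂)` is not compact although the
D'Angelo types of `p` with respect to `Ω₁` and `Ω₂` are different. -/
theorem result :
    ∃ (Ω₁ Ω₂ : Set (Fin 3 → ℂ)) (p : Fin 3 → ℂ), Ω₂ ⊆ Ω₁ ∧
      IsSmoothBoundedPseudoconvexDomain Ω₁ ∧ IsSmoothBoundedPseudoconvexDomain Ω₂ ∧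
      frontier Ω₁ ∩ frontier Ω₂ = {p} ∧
      ¬ RestrictionIsCompact Ω₁ Ω₂ ∧
      ∀ r₁ r₂ : (Fin 3 → ℂ) → ℝ,
        IsLocalDefiningFunction Ω₁ p r₁ → IsLocalDefiningFunction Ω₂ p r₂ →
          dAngeloType r₂ p ≤ 12 ∧ 14 ≤ dAngeloType r₁ p := by
  refine ⟨Ω₁, Ω₂, 0, Ω₂_subset_Ω₁, isDomain_Ω₁, isDomain_Ω₂, frontier_inter, not_compact, ?_⟩
  intro q₁ q₂ hq₁ hq₂
  constructor
  · rw [dAngeloType_eq_of_definingFunction zero_mem_frontier₂ hq₂
      (isLocalDefiningFunction_of r₂ contDiff_r₂ 0 (fderiv_r₂_ne 0 r₂_zero))]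
    exact dAngeloType_r₂_le
  · rw [dAngeloType_eq_of_definingFunction zero_mem_frontier₁ hq₁
      (isLocalDefiningFunction_of r₁ contDiff_r₁ 0 (fderiv_r₁_ne 0 r₁_zero))]
    exact le_dAngeloType_r₁

end Pool.Agent.Results.MP_46c13c_an.UnequalTypes
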